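import Pool.Agent.H236.TC.JT

set_option autoImplicit false
open Finset

namespace Pool.Agent.H236.TC

section ring
variable {A : Type*} [CommRing A]

lemma sq_nil {x : A} {N : ℕ} (hx : x ^ N = 0) : (x ^ 2) ^ N = 0 := by
  rw [← pow_mul, mul_comm, pow_mul, hx]
  rcases N with _ | N
  · simp at hx
    have : ∀ a : A, a = 0 := fun a => by rw [← mul_one a, hx, mul_zero]
    exact this _
  · simp

lemma inner {x : A} {N : ℕ} (hx : x ^ N = 0) (k : ℕ) :
    ∑ m ∈ range N, x ^ (2 * m + 1) * P (x ^ 2) N m * D (x ^ 2) N * bb x m k =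
      (-1) ^ k * x ^ (k ^ 2) * (x * tt (x ^ 2) N k) := by
  have hp : (x ^ 2) ^ N = 0 := sq_nil hx
  have h0 : ∀ m, k ≤ m → x ^ (2 * m + 1) * P (x ^ 2) N m * D (x ^ 2) N * bb x m k =
      (-1) ^ k * x ^ (k ^ 2) * (x * (D (x ^ 2) N * f (x ^ 2) N k m)) := by
    intro m hm
    simp only [bb, hm, if_true, f]
    ring
  rcases Nat.lt_or_ge N k with h | h
  · rw [sum_eq_zero]
    · unfold tt
      rw [sum_eq_zero (fun d _ => f_zero hp k (by omega))]
      ring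
    · intro m hm
      have := mem_range.mp hm
      simp [bb, show ¬ (k ≤ m) by omega]
  · obtain ⟨M, rfl⟩ := Nat.exists_eq_add_of_le h
    rw [sum_range_add]
    have e1 : ∑ m ∈ range k, x ^ (2 * m + 1) * P (x ^ 2) (k + M) m * D (x ^ 2) (k + M) * bb x m k = 0 := by
      apply sum_eq_zero
      intro m hm
      have := mem_range.mp hm
      simp [bb, show ¬ (k ≤ m) by omega]
    rw [e1, zero_add, sum_congr rfl (fun d _ => h0 (k + d) (by omega)), ← mul_sum, ← mul_sum,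
      ← mul_sum, tt]
    congr 3
    rw [add_comm k M, sum_range_add _ M k]
    have e2 : ∑ d ∈ range k, f (x ^ 2) (M + k) k (k + (M + d)) = 0 := by
      apply sum_eq_zero
      intro d _
      exact f_zero (by rw [add_comm]; exact hp) k (by omega)
    rw [e2, add_zero]

lemma main_ring {x : A} {N : ℕ} (hx : x ^ N = 0) (I : ℕ → A)
    (hI : ∀ m, I m * ∏ j ∈ range N, (1 - x ^ (2 * m + 1 + 2 * j)) = 1) :
    (∑ m ∈ range N, x ^ (2 * m + 1) * (∏ j ∈ range N, (1 + x ^ (2 * m + 2 + 2 * j))) * (I m) ^ 2) *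
      (1 + 2 * SS x N) =
    x * cl (x ^ 2) N 0 + 2 * ∑ k ∈ range N, (-1) ^ (k + 1) * x ^ ((k + 1) ^ 2) * (x * cl (x ^ 2) N (k + 1)) := by
  have hp : (x ^ 2) ^ N = 0 := sq_nil hx
  have hn : IsNilpotent (x ^ 2) := ⟨N, hp⟩
  have hO : ∀ m, Om x N * I m = Om x m := by
    intro m
    have h1 : Om x m * ∏ j ∈ range N, (1 - x ^ (2 * m + 1 + 2 * j)) = Om x N := by
      rw [← Om_stable hx (by omega : N ≤ m + N)]
      unfold Om
      rw [prod_range_add]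
      congr 1
      apply prod_congr rfl
      intro j _
      rw [show 2 * m + 1 + 2 * j = 2 * (m + j) + 1 by ring]
    rw [← h1]
    linear_combination (Om x m) * hI m
  rw [← phi_eq hx]
  have e1 : (∑ m ∈ range N, x ^ (2 * m + 1) * (∏ j ∈ range N, (1 + x ^ (2 * m + 2 + 2 * j))) * (I m) ^ 2) *
      (D (x ^ 2) N * Om x N ^ 2) =
      ∑ m ∈ range N, x ^ (2 * m + 1) * P (x ^ 2) N m * D (x ^ 2) N * (bb x m 0 + 2 * ∑ k ∈ range N, bb x m (k + 1)) := by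
    rw [sum_mul]
    apply sum_congr rfl
    intro m hm
    have hm' := mem_range.mp hm
    rw [← Om_sq hn m N (by omega), ← hO m]
    have : ∏ j ∈ range N, (1 + x ^ (2 * m + 2 + 2 * j)) = P (x ^ 2) N m := by
      unfold P
      apply prod_congr rfl
      intro j _
      rw [← pow_mul, show 2 * (m + 1 + j) = 2 * m + 2 + 2 * j by ring]
    rw [this]
    ring
  rw [e1]
  simp only [mul_add, sum_add_distrib]
  rw [inner hx 0]
  have e2 : ∑ m ∈ range N, x ^ (2 * m + 1) * P (x ^ 2) N m * D (x ^ 2) N * (2 * ∑ k ∈ range N, bb x m (k + 1))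
      = 2 * ∑ k ∈ range N, ∑ m ∈ range N, x ^ (2 * m + 1) * P (x ^ 2) N m * D (x ^ 2) N * bb x m (k + 1) := by
    rw [sum_comm, mul_sum]
    apply sum_congr rfl
    intro m _
    rw [← mul_sum]; ring
  rw [e2, sum_congr rfl (fun k _ => inner hx (k + 1)), tt_eq hp N 0 (by omega)]
  rw [sum_congr rfl (fun k _ => by rw [tt_eq hp N (k + 1) (by omega)])]
  simp

end ring

open PowerSeries

/-- the truncated generating function; its coefficients below `N` are the `c(n)` -/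
noncomputable def FN (N : ℕ) : ℤ⟦X⟧ :=
  ∑ m ∈ range N, (X : ℤ⟦X⟧) ^ (2 * m + 1) * (∏ j ∈ range N, (1 + (X : ℤ⟦X⟧) ^ (2 * m + 2 + 2 * j))) *
    (invOfUnit (∏ j ∈ range N, (1 - (X : ℤ⟦X⟧) ^ (2 * m + 1 + 2 * j))) 1) ^ 2

noncomputable def T0 (N : ℕ) : ℤ⟦X⟧ := X * cl (X ^ 2) N 0
noncomputable def RR (N : ℕ) : ℤ⟦X⟧ :=
  ∑ k ∈ range N, (-1) ^ (k + 1) * X ^ ((k + 1) ^ 2) * (X * cl (X ^ 2) N (k + 1))

lemma main_ps (N : ℕ) : ∃ J : ℤ⟦X⟧, FN N * (1 + 2 * SS X N) = T0 N + 2 * RR N + X ^ N * J := by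
  set Q := Ideal.span {(X : ℤ⟦X⟧) ^ N}
  let φ := Ideal.Quotient.mk Q
  have hx : (φ X) ^ N = 0 := by
    rw [← map_pow, Ideal.Quotient.eq_zero_iff_mem]
    exact Ideal.subset_span rfl
  have hI : ∀ m, φ (invOfUnit (∏ j ∈ range N, (1 - (X : ℤ⟦X⟧) ^ (2 * m + 1 + 2 * j))) 1) *
      ∏ j ∈ range N, (1 - (φ X) ^ (2 * m + 1 + 2 * j)) = 1 := by
    intro m
    have h1 : ∏ j ∈ range N, (1 - (φ X) ^ (2 * m + 1 + 2 * j)) =
        φ (∏ j ∈ range N, (1 - (X : ℤ⟦X⟧) ^ (2 * m + 1 + 2 * j))) := by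
      simp [map_prod]
    rw [h1, ← map_mul, mul_comm, mul_invOfUnit, map_one]
    simp [map_prod]
  have h := main_ring hx _ hI
  have h22 : φ 2 = 2 := map_ofNat φ 2
  have h2 : φ (FN N * (1 + 2 * SS X N)) = φ (T0 N + 2 * RR N) := by
    have e : φ (FN N * (1 + 2 * SS X N)) = (∑ m ∈ range N, (φ X) ^ (2 * m + 1) * (∏ j ∈ range N, (1 + (φ X) ^ (2 * m + 2 + 2 * j))) * (φ (invOfUnit (∏ j ∈ range N, (1 - (X : ℤ⟦X⟧) ^ (2 * m + 1 + 2 * j))) 1)) ^ 2) *
      (1 + 2 * SS (φ X) N) := by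
      simp [FN, SS, map_sum, map_prod, h22]
    rw [e, h]
    simp [T0, RR, cl, map_sum, h22]
  have h3 : FN N * (1 + 2 * SS X N) - (T0 N + 2 * RR N) ∈ Q := by
    rw [← Ideal.Quotient.eq_zero_iff_mem, map_sub]
    exact sub_eq_zero.mpr h2
  obtain ⟨J, hJ⟩ := Ideal.mem_span_singleton'.mp h3
  exact ⟨J, by rw [mul_comm (X ^ N) J, hJ]; ring⟩

end Pool.Agent.H236.TC
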