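import Pool.Agent.H236.TC.PA

set_option autoImplicit false
open Finset

namespace Pool.Agent.H236.TC

/-! ### the quadrilateral for `3l² + 2uv` -/

def q1 (w : T3) : ℤ := 3 * w.1 ^ 2 + 2 * w.2.1 * w.2.2

noncomputable def X1 (M : ℤ) : Finset T3 := (Bx (10 * M)).filter (fun w => q1 w = M ∧ 0 < w.2.2)

lemma bA1 {M l u v : ℤ} (h : 3 * l ^ 2 + 2 * u * v = M) (hv : 0 < v) (hu : v < u) :
    ((l, u, v) : T3) ∈ Bx (10 * M) := by
  rw [mem_Bx]
  have h1 := le_sq l
  have h2 : 0 < u * v := by nlinarith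
  have h3 : u ≤ u * v := by nlinarith
  have h4 : v ≤ u * v := by nlinarith
  have h5 : 0 ≤ l ^ 2 := sq_nonneg l
  have h6 : 2 * u * v = 2 * (u * v) := by ring
  rw [h6] at h
  generalize u * v = t at *
  generalize l ^ 2 = s at *
  dsimp only
  omega

lemma bB1 {M l u v : ℤ} (h : 3 * l ^ 2 + 2 * u * v = M) (hu : v < u) (hl : 0 < 2 * l - u + v) :
    ((l, u, v) : T3) ∈ Bx (10 * M) := by
  rw [mem_Bx]
  have h1 := le_sq l
  have h2 := le_sq (u + v)
  have h3 : (u - v) ^ 2 ≤ 4 * l ^ 2 := by nlinarith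
  have h4 : 2 * l ^ 2 + (u + v) ^ 2 ≤ 2 * M := by nlinarith
  have h5 : 0 ≤ l ^ 2 := sq_nonneg l
  have h6 : 0 ≤ (u + v) ^ 2 := sq_nonneg _
  generalize (u + v) ^ 2 = t at *
  generalize l ^ 2 = s at *
  dsimp only
  omega

lemma bR1 {M l u v : ℤ} (h : 3 * l ^ 2 + 2 * u * v = M) (hg : 0 < 2 * l - u + v)
    (hd : 3 * l - u + 2 * v < 0) : ((l, u, v) : T3) ∈ Bx (10 * M) := by
  rw [mem_Bx]
  obtain ⟨g, hg'⟩ : ∃ g, g = 2 * l - u + v := ⟨_, rfl⟩
  obtain ⟨e, he'⟩ : ∃ e, e = -(3 * l - u + 2 * v) := ⟨_, rfl⟩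
  have hg0 : 0 < g := by omega
  have he0 : 0 < e := by omega
  have hl : l = -v - g - e := by omega
  have hu : u = -v - 3 * g - 2 * e := by omega
  have h0 : (v + e) ^ 2 + 3 * g ^ 2 + 2 * e ^ 2 + 6 * (g * e) = M := by rw [← h, hl, hu]; ring
  have h1 := le_sq (v + e)
  have h2 := le_sq g
  have h3 := le_sq e
  have h4 : 0 < g * e := mul_pos hg0 he0
  have h5 : 0 ≤ (v + e) ^ 2 := sq_nonneg _
  generalize (v + e) ^ 2 = a at *
  generalize g ^ 2 = b at *
  generalize e ^ 2 = c at *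
  generalize g * e = d at *
  dsimp only
  omega

lemma bC1 {M l u v : ℤ} (h : 3 * l ^ 2 + 2 * u * v = M) (hv : 0 < v) (hl : 3 * l - u + 2 * v < 0) :
    ((l, u, v) : T3) ∈ Bx (10 * M) := by
  rw [mem_Bx]
  obtain ⟨e, he⟩ : ∃ e, e = u - 3 * l - 2 * v := ⟨_, rfl⟩
  have he0 : 0 < e := by omega
  have hu : u = 3 * l + 2 * v + e := by omega
  have h1 := le_sq (l + v)
  have h2 := le_sq v
  have h0 : 3 * (l + v) ^ 2 + v ^ 2 + 2 * (v * e) = M := by rw [← h, hu]; ring
  have h3 : e ≤ v * e := by nlinarith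
  have h5 : 0 ≤ (l + v) ^ 2 := sq_nonneg _
  have h6 : 0 ≤ v ^ 2 := sq_nonneg _
  generalize (l + v) ^ 2 = t at *
  generalize v ^ 2 = s at *
  generalize v * e = r at *
  dsimp only
  omega

lemma quad (M : ℤ) (hM : M % 24 = 11) :
    ((PS M F1).card : ZMod 2) + ((PS M FD).card : ZMod 2) =
      ((PS M F2).card : ZMod 2) + ((PS M F3).card : ZMod 2) := by
  have hf : ∀ l u v : ℤ, 3 * l ^ 2 + 2 * u * v = M → l % 2 = 1 ∧ v ≠ 0 ∧ 3 * l - u + 2 * v ≠ 0 := by
    intro l u v h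
    refine ⟨?_, ?_, ?_⟩
    · rcases Int.even_or_odd' l with ⟨b, hb | hb⟩
      · exfalso
        have : 3 * l ^ 2 + 2 * u * v = 2 * (6 * b ^ 2 + u * v) := by rw [hb]; ring
        rw [h] at this; omega
      · omega
    · rintro rfl
      rw [mul_zero, add_zero] at h
      omega
    · intro h0
      have hu : u = 3 * l + 2 * v := by omega
      have : M = 3 * (l + v) ^ 2 + v ^ 2 := by rw [← h, hu]; ring
      have := sq_mod3 v
      omega
  have hsum : (((X1 M).filter (fun w => w.2.2 - w.2.1 < 0)).card : ZMod 2) +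
      (((X1 M).filter (fun w => (w.2.2 - w.2.1 < 0 ∧ 2 * w.1 - w.2.1 + w.2.2 > 0) ∨
        (w.2.2 - w.2.1 > 0 ∧ 2 * w.1 - w.2.1 + w.2.2 < 0))).card : ZMod 2) +
      (((X1 M).filter (fun w => (2 * w.1 - w.2.1 + w.2.2 > 0 ∧ 3 * w.1 - w.2.1 + 2 * w.2.2 < 0) ∨
        (2 * w.1 - w.2.1 + w.2.2 < 0 ∧ 3 * w.1 - w.2.1 + 2 * w.2.2 > 0))).card : ZMod 2) +
      (((X1 M).filter (fun w => 3 * w.1 - w.2.1 + 2 * w.2.2 < 0)).card : ZMod 2) =
      (((X1 M).filter (fun w => w.2.2 - w.2.1 = 0 ∧ 2 * w.1 - w.2.1 + w.2.2 < 0)).card : ZMod 2) +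
      (((X1 M).filter (fun w => 2 * w.1 - w.2.1 + w.2.2 = 0 ∧
        ((w.2.2 - w.2.1 < 0 ∧ 3 * w.1 - w.2.1 + 2 * w.2.2 > 0) ∨
        (w.2.2 - w.2.1 > 0 ∧ 3 * w.1 - w.2.1 + 2 * w.2.2 < 0)))).card : ZMod 2) := by
    rw [← sum_boole, ← sum_boole, ← sum_boole, ← sum_boole, ← sum_boole, ← sum_boole,
      ← sum_add_distrib, ← sum_add_distrib, ← sum_add_distrib, ← sum_add_distrib]
    apply sum_congr rfl
    rintro ⟨l, u, v⟩ hw
    simp only [X1, mem_filter] at hw; simp only [q1] at hw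
    obtain ⟨h1, h2, h3⟩ := hf l u v hw.2.1
    exact pw4 _ _ _ (by dsimp only; omega) (by dsimp only; omega)
  have hA : (((X1 M).filter (fun w => w.2.2 - w.2.1 < 0)).card : ZMod 2) = 0 := by
    rw [inv_card _ (fun w => (-w.1, w.2.1, w.2.2))]
    · rw [filter_eq_empty_iff.mpr, card_empty, Nat.cast_zero]
      rintro ⟨l, u, v⟩ hw heq
      simp only [X1, mem_filter] at hw; simp only [q1] at hw
      obtain ⟨h1, h2, h3⟩ := hf l u v hw.1.2.1
      simp only [Prod.mk.injEq] at heq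
      omega
    · rintro ⟨l, u, v⟩ hw
      simp only [X1, mem_filter] at hw ⊢; simp only [q1] at hw ⊢
      have h : 3 * (-l) ^ 2 + 2 * u * v = M := by rw [← hw.1.2.1]; ring
      exact ⟨⟨bA1 h hw.1.2.2 (by omega), h, hw.1.2.2⟩, hw.2⟩
    · rintro ⟨l, u, v⟩ _; simp
  have hC : (((X1 M).filter (fun w => 3 * w.1 - w.2.1 + 2 * w.2.2 < 0)).card : ZMod 2) =
      ((PS M FD).card : ZMod 2) := by
    rw [inv_card _ (fun w => (-w.1 - 2 * w.2.2, w.2.1 - 6 * w.1 - 6 * w.2.2, w.2.2))]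
    · congr 1
      apply card_nbij' (fun w => (w.2.2, w.2.1 + w.2.2)) (fun p => (-p.1, p.2 - p.1, p.1))
      · rintro ⟨l, u, v⟩ hw
        simp only [X1, mem_coe, mem_filter, Prod.mk.injEq] at hw; simp only [q1] at hw
        obtain ⟨⟨⟨_, hq, hv⟩, hg⟩, h1, _, _⟩ := hw
        have hl : l = -v := by omega
        subst hl
        simp only [mem_coe]
        apply psD (by omega) (by omega)
        simp only [FD]; rw [← hq]; ring
      · rintro ⟨a, y⟩ hp
        simp only [mem_coe] at hp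
        rw [mem_PS] at hp
        simp only [FD] at hp
        obtain ⟨⟨⟨h1, _⟩, ⟨h2, _⟩⟩, h3⟩ := hp
        have hq : 3 * (-a) ^ 2 + 2 * (y - a) * a = M := by rw [← h3]; ring
        simp only [X1, mem_coe, mem_filter, Prod.mk.injEq]; simp only [q1]
        exact ⟨⟨⟨bC1 hq (by omega) (by omega), hq, by omega⟩, by omega⟩, by omega, by omega, trivial⟩
      · rintro ⟨l, u, v⟩ hw
        simp only [X1, mem_coe, mem_filter, Prod.mk.injEq] at hw
        refine Prod.ext ?_ (Prod.ext ?_ ?_) <;> dsimp only <;> omega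
      · rintro ⟨a, y⟩ _
        refine Prod.ext ?_ ?_ <;> dsimp only <;> omega
    · rintro ⟨l, u, v⟩ hw
      simp only [X1, mem_filter] at hw ⊢; simp only [q1] at hw ⊢
      have h : 3 * (-l - 2 * v) ^ 2 + 2 * (u - 6 * l - 6 * v) * v = M := by rw [← hw.1.2.1]; ring
      exact ⟨⟨bC1 h hw.1.2.2 (by omega), h, hw.1.2.2⟩, by omega⟩
    · rintro ⟨l, u, v⟩ _
      refine Prod.ext ?_ (Prod.ext ?_ ?_) <;> dsimp only <;> omega
  have hB : (((X1 M).filter (fun w => (w.2.2 - w.2.1 < 0 ∧ 2 * w.1 - w.2.1 + w.2.2 > 0) ∨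
        (w.2.2 - w.2.1 > 0 ∧ 2 * w.1 - w.2.1 + w.2.2 < 0))).card : ZMod 2) = 0 := by
    have e : ((X1 M).filter (fun w => (w.2.2 - w.2.1 < 0 ∧ 2 * w.1 - w.2.1 + w.2.2 > 0) ∨
        (w.2.2 - w.2.1 > 0 ∧ 2 * w.1 - w.2.1 + w.2.2 < 0))).card =
        ((Bx (10 * M)).filter (fun w => q1 w = M ∧ w.2.2 - w.2.1 < 0 ∧ 2 * w.1 - w.2.1 + w.2.2 > 0)).card := by
      apply card_nbij' (fun w => if w.2.2 - w.2.1 < 0 then w else (-w.1, -w.2.1, -w.2.2))
        (fun w => if 0 < w.2.2 then w else (-w.1, -w.2.1, -w.2.2))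
      · rintro ⟨l, u, v⟩ hw
        simp only [mem_coe, X1, mem_filter] at hw ⊢; simp only [q1] at hw ⊢
        obtain ⟨⟨hb, hq, hv⟩, h⟩ := hw
        split_ifs with h1
        · exact ⟨hb, hq, h1, by dsimp only at *; omega⟩
        · have h' : 3 * (-l) ^ 2 + 2 * (-u) * (-v) = M := by rw [← hq]; ring
          exact ⟨bB1 h' (by omega) (by omega), h', by simp only; omega, by simp only; omega⟩
      · rintro ⟨l, u, v⟩ hw
        simp only [mem_coe, X1, mem_filter] at hw ⊢; simp only [q1] at hw ⊢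
        obtain ⟨hb, hq, h⟩ := hw
        have hodd' := hf l u v hq
        split_ifs with h1
        · exact ⟨⟨hb, hq, h1⟩, by dsimp only at *; omega⟩
        · have h' : 3 * (-l) ^ 2 + 2 * (-u) * (-v) = M := by rw [← hq]; ring
          refine ⟨⟨?_, h', by simp only; omega⟩, by simp only; omega⟩
          rw [mem_Bx] at hb ⊢
          simp only at hb ⊢
          omega
      · rintro ⟨l, u, v⟩ hw
        simp only [mem_coe, X1, mem_filter] at hw ⊢; simp only [q1] at hw ⊢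
        obtain ⟨⟨hb, hq, hv⟩, h⟩ := hw
        split_ifs with h1 h2 h3 <;> first | rfl | (exfalso; dsimp only at *; omega) | (simp only [neg_neg])
      · rintro ⟨l, u, v⟩ hw
        simp only [mem_coe, mem_filter] at hw ⊢; simp only [q1] at hw ⊢
        obtain ⟨hb, hq, h⟩ := hw
        split_ifs with h1 h2 h3 <;> first | rfl | (exfalso; dsimp only at *; omega) | (simp only [neg_neg])
    rw [e, inv_card _ (fun w => (w.1, -w.2.2, -w.2.1))]
    · rw [filter_eq_empty_iff.mpr, card_empty, Nat.cast_zero]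
      rintro ⟨l, u, v⟩ hw heq
      simp only [mem_filter] at hw; simp only [q1] at hw
      simp only [Prod.mk.injEq] at heq
      have hq := hw.2.1
      have : v = -u := by omega
      subst this
      have h2 : M = 3 * (l ^ 2 - u ^ 2) + u ^ 2 := by rw [← hq]; ring
      have := sq_mod3 u
      omega
    · rintro ⟨l, u, v⟩ hw
      simp only [mem_filter] at hw ⊢; simp only [q1] at hw ⊢
      have h : 3 * l ^ 2 + 2 * (-v) * (-u) = M := by rw [← hw.2.1]; ring
      exact ⟨bB1 h (by omega) (by omega), h, by omega, by omega⟩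
    · rintro ⟨l, u, v⟩ _; simp
  have hR : (((X1 M).filter (fun w => (2 * w.1 - w.2.1 + w.2.2 > 0 ∧ 3 * w.1 - w.2.1 + 2 * w.2.2 < 0) ∨
        (2 * w.1 - w.2.1 + w.2.2 < 0 ∧ 3 * w.1 - w.2.1 + 2 * w.2.2 > 0))).card : ZMod 2) =
        ((PS M F1).card : ZMod 2) := by
    have e : ((X1 M).filter (fun w => (2 * w.1 - w.2.1 + w.2.2 > 0 ∧ 3 * w.1 - w.2.1 + 2 * w.2.2 < 0) ∨
        (2 * w.1 - w.2.1 + w.2.2 < 0 ∧ 3 * w.1 - w.2.1 + 2 * w.2.2 > 0))).card =
        ((Bx (10 * M)).filter (fun w => q1 w = M ∧ 2 * w.1 - w.2.1 + w.2.2 > 0 ∧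
          3 * w.1 - w.2.1 + 2 * w.2.2 < 0)).card := by
      apply card_nbij' (fun w => if 2 * w.1 - w.2.1 + w.2.2 > 0 then w else (-w.1, -w.2.1, -w.2.2))
        (fun w => if 0 < w.2.2 then w else (-w.1, -w.2.1, -w.2.2))
      · rintro ⟨l, u, v⟩ hw
        simp only [mem_coe, X1, mem_filter] at hw ⊢; simp only [q1] at hw ⊢
        obtain ⟨⟨hb, hq, hv⟩, h⟩ := hw
        split_ifs with h1
        · exact ⟨hb, hq, h1, by dsimp only at *; omega⟩
        · have h' : 3 * (-l) ^ 2 + 2 * (-u) * (-v) = M := by rw [← hq]; ring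
          exact ⟨bR1 h' (by omega) (by omega), h', by simp only; omega, by simp only; omega⟩
      · rintro ⟨l, u, v⟩ hw
        simp only [mem_coe, X1, mem_filter] at hw ⊢; simp only [q1] at hw ⊢
        obtain ⟨hb, hq, h⟩ := hw
        have hodd' := hf l u v hq
        split_ifs with h1
        · exact ⟨⟨hb, hq, h1⟩, by dsimp only at *; omega⟩
        · have h' : 3 * (-l) ^ 2 + 2 * (-u) * (-v) = M := by rw [← hq]; ring
          refine ⟨⟨?_, h', by simp only; omega⟩, by simp only; omega⟩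
          rw [mem_Bx] at hb ⊢
          simp only at hb ⊢
          omega
      · rintro ⟨l, u, v⟩ hw
        simp only [mem_coe, X1, mem_filter] at hw ⊢; simp only [q1] at hw ⊢
        obtain ⟨⟨hb, hq, hv⟩, h⟩ := hw
        split_ifs with h1 h2 h3 <;> first | rfl | (exfalso; dsimp only at *; omega) | (simp only [neg_neg])
      · rintro ⟨l, u, v⟩ hw
        simp only [mem_coe, mem_filter] at hw ⊢; simp only [q1] at hw ⊢
        obtain ⟨hb, hq, h⟩ := hw
        split_ifs with h1 h2 h3 <;> first | rfl | (exfalso; dsimp only at *; omega) | (simp only [neg_neg])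
    rw [e, inv_card _ (fun w => (w.1 - 2 * (3 * w.1 - w.2.1 + w.2.2), w.2.1 - 2 * (3 * w.1 - w.2.1 + w.2.2),
      w.2.2 + 2 * (3 * w.1 - w.2.1 + w.2.2)))]
    · congr 1
      apply card_nbij' (fun w => (-w.1, -w.2.2)) (fun p => (-p.1, -3 * p.1 - p.2, -p.2))
      · rintro ⟨l, u, v⟩ hw
        simp only [mem_coe, mem_filter, Prod.mk.injEq] at hw; simp only [q1] at hw
        obtain ⟨⟨_, hq, hg, hd⟩, h1, _, _⟩ := hw
        have hu : u = 3 * l + v := by omega
        subst hu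
        simp only [mem_coe]
        apply ps1 (by omega) (by omega)
        simp only [F1]; rw [← hq]; ring
      · rintro ⟨a, y⟩ hp
        simp only [mem_coe] at hp
        rw [mem_PS] at hp
        simp only [F1] at hp
        obtain ⟨⟨⟨h1, _⟩, ⟨h2, _⟩⟩, h3⟩ := hp
        have hq : 3 * (-a) ^ 2 + 2 * (-3 * a - y) * (-y) = M := by rw [← h3]; ring
        simp only [mem_coe, mem_filter, Prod.mk.injEq]; simp only [q1]
        exact ⟨⟨bR1 hq (by omega) (by omega), hq, by omega, by omega⟩, by omega, by omega, by omega⟩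
      · rintro ⟨l, u, v⟩ hw
        simp only [mem_coe, mem_filter, Prod.mk.injEq] at hw
        refine Prod.ext ?_ (Prod.ext ?_ ?_) <;> dsimp only <;> omega
      · rintro ⟨a, y⟩ _
        refine Prod.ext ?_ ?_ <;> dsimp only <;> omega
    · rintro ⟨l, u, v⟩ hw
      simp only [mem_filter] at hw ⊢; simp only [q1] at hw ⊢
      have h : 3 * (l - 2 * (3 * l - u + v)) ^ 2 + 2 * (u - 2 * (3 * l - u + v)) * (v + 2 * (3 * l - u + v)) = M := by
        rw [← hw.2.1]; ring
      exact ⟨bR1 h (by omega) (by omega), h, by omega, by omega⟩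
    · rintro ⟨l, u, v⟩ _
      refine Prod.ext ?_ (Prod.ext ?_ ?_) <;> dsimp only <;> omega
  have hZ2 : ((X1 M).filter (fun w => w.2.2 - w.2.1 = 0 ∧ 2 * w.1 - w.2.1 + w.2.2 < 0)).card = (PS M F2).card := by
    apply card_nbij' (fun w => (-w.1, w.2.2)) (fun p => (-p.1, p.2, p.2))
    · rintro ⟨l, u, v⟩ hw
      simp only [mem_coe, X1, mem_filter] at hw; simp only [q1] at hw
      obtain ⟨⟨_, hq, hv⟩, h1, h2⟩ := hw
      simp only [mem_coe]
      apply ps2 (by omega) (by omega)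
      simp only [F2]; rw [← hq, show u = v by omega]; ring
    · rintro ⟨a, y⟩ hp
      simp only [mem_coe] at hp
      rw [mem_PS] at hp
      simp only [F2] at hp
      obtain ⟨⟨⟨h1, h1'⟩, ⟨h2, h2'⟩⟩, h3⟩ := hp
      have hq : 3 * (-a) ^ 2 + 2 * y * y = M := by rw [← h3]; ring
      simp only [mem_coe, X1, mem_filter]; simp only [q1]
      refine ⟨⟨?_, hq, by omega⟩, by omega, by omega⟩
      rw [mem_Bx]; simp only; omega
    · rintro ⟨l, u, v⟩ hw
      simp only [mem_coe, X1, mem_filter] at hw; simp only [q1] at hw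
      refine Prod.ext ?_ (Prod.ext ?_ ?_) <;> dsimp only <;> omega
    · rintro ⟨a, y⟩ _; simp
  have hZ3 : ((X1 M).filter (fun w => 2 * w.1 - w.2.1 + w.2.2 = 0 ∧
        ((w.2.2 - w.2.1 < 0 ∧ 3 * w.1 - w.2.1 + 2 * w.2.2 > 0) ∨
        (w.2.2 - w.2.1 > 0 ∧ 3 * w.1 - w.2.1 + 2 * w.2.2 < 0)))).card = (PS M F3).card := by
    apply card_nbij' (fun w => if 0 < w.1 then (w.1, w.1 + w.2.2) else (-w.1, -(w.1 + w.2.2)))
      (fun p => if p.1 < p.2 then (p.1, p.1 + p.2, p.2 - p.1) else (-p.1, -p.1 - p.2, p.1 - p.2))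
    · rintro ⟨l, u, v⟩ hw
      simp only [mem_coe, X1, mem_filter] at hw; simp only [q1] at hw
      obtain ⟨⟨_, hq, hv⟩, h1, h2⟩ := hw
      have hu : u = 2 * l + v := by omega
      subst hu
      simp only [mem_coe]
      split_ifs with h3
      · apply ps3 (by omega) (by omega)
        simp only [F3]; rw [← hq]; ring
      · apply ps3 (by omega) (by omega)
        simp only [F3]; rw [← hq]; ring
    · rintro ⟨a, y⟩ hp
      simp only [mem_coe] at hp
      rw [mem_PS] at hp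
      simp only [F3] at hp
      obtain ⟨⟨⟨h1, h1'⟩, ⟨h2, h2'⟩⟩, h3⟩ := hp
      have hne : a ≠ y := by
        rintro rfl
        have : M = 3 * a ^ 2 := by rw [← h3]; ring
        omega
      simp only [mem_coe, X1, mem_filter]; simp only [q1]
      split_ifs with h4
      · have hq : 3 * a ^ 2 + 2 * (a + y) * (y - a) = M := by rw [← h3]; ring
        refine ⟨⟨?_, hq, by dsimp only; omega⟩, by dsimp only; omega, by dsimp only; omega⟩
        rw [mem_Bx]; dsimp only; omega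
      · have hq : 3 * (-a) ^ 2 + 2 * (-a - y) * (a - y) = M := by rw [← h3]; ring
        refine ⟨⟨?_, hq, by dsimp only; omega⟩, by dsimp only; omega, by dsimp only; omega⟩
        rw [mem_Bx]; dsimp only; omega
    · rintro ⟨l, u, v⟩ hw
      simp only [mem_coe, X1, mem_filter] at hw; simp only [q1] at hw
      obtain ⟨⟨_, hq, hv⟩, h1, h2⟩ := hw
      dsimp only
      split_ifs with h3 h4 h5 <;> (try dsimp only at *) <;>
        first
        | (exfalso; omega)
        | (refine Prod.ext ?_ (Prod.ext ?_ ?_) <;> dsimp only <;> omega)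
    · rintro ⟨a, y⟩ hp
      simp only [mem_coe] at hp
      rw [mem_PS] at hp
      obtain ⟨⟨⟨h1, h1'⟩, ⟨h2, h2'⟩⟩, h3⟩ := hp
      dsimp only at *
      split_ifs with h4 h5 h6 <;> (try dsimp only at *) <;>
        first
        | (exfalso; omega)
        | (refine Prod.ext ?_ ?_ <;> dsimp only <;> omega)
  rw [hA, hB, hC, hR, hZ2, hZ3] at hsum
  simpa using hsum

theorem parity (M : ℤ) (hM : M % 24 = 11) (hpos : 0 < M) :
    ((PS M F1).card : ZMod 2) = ((PS M F2).card : ZMod 2) := by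
  have h1 := quad M hM
  have h2 := tri M hM hpos
  rw [h2] at h1
  exact add_right_cancel h1

end Pool.Agent.H236.TC
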