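import Pool.Agent.H236.TC.EX
import Pool.Agent.H236.TC.PB

set_option autoImplicit false
open Finset PowerSeries

namespace Pool.Agent.H236.TC

lemma sum3 {R : Type*} [AddCommMonoid R] (h : ℕ → R) (h0 : ∀ i, h (3 * i) = 0) (N : ℕ) :
    ∑ i ∈ range N, (h (3 * i + 1) + h (3 * i + 2)) = ∑ y ∈ range (3 * N), h y := by
  induction N with
  | zero => simp
  | succ N ih =>
    rw [sum_range_succ, ih, show 3 * (N + 1) = 3 * N + 1 + 1 + 1 by ring, sum_range_succ,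
      sum_range_succ, sum_range_succ, h0]
    simp [add_assoc]

lemma cT (N n a κ b : ℕ) :
    ((coeff n ((-1) ^ b * X ^ a * (X * cl (X ^ 2) N κ)) : ℤ) : ZMod 2) =
      ∑ y ∈ range (3 * N), if 3 * n = 3 * a + 6 * κ * y + 2 * y ^ 2 + 1 then (1 : ZMod 2) else 0 := by
  rw [← sum3 (fun y => if 3 * n = 3 * a + 6 * κ * y + 2 * y ^ 2 + 1 then (1 : ZMod 2) else 0)]
  · unfold cl
    rw [mul_sum, mul_sum, map_sum, Int.cast_sum]
    apply sum_congr rfl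
    intro i _
    rw [show (-1) ^ b * (X : ℤ⟦X⟧) ^ a * (X * ((-1) ^ i * ((X ^ 2) ^ (3 * i ^ 2 + 2 * i + κ * (3 * i + 1)) +
      (X ^ 2) ^ (3 * i ^ 2 + 4 * i + 1 + κ * (3 * i + 2))))) =
      (((-1) ^ (b + i) : ℤ) : ℤ⟦X⟧) * (X ^ (a + 1 + 2 * (3 * i ^ 2 + 2 * i + κ * (3 * i + 1))) +
        X ^ (a + 1 + 2 * (3 * i ^ 2 + 4 * i + 1 + κ * (3 * i + 2)))) by push_cast; ring,
      cm, map_add, coeff_X_pow, coeff_X_pow]
    push_cast
    rw [show (-1 : ZMod 2) = 1 by decide, one_pow, one_mul]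
    congr 1
    · apply if_congr _ rfl rfl
      constructor
      · intro h; rw [h]; ring
      · intro h
        have : 3 * n = 3 * (a + 1 + 2 * (3 * i ^ 2 + 2 * i + κ * (3 * i + 1))) := by rw [h]; ring
        omega
    · apply if_congr _ rfl rfl
      constructor
      · intro h; rw [h]; ring
      · intro h
        have : 3 * n = 3 * (a + 1 + 2 * (3 * i ^ 2 + 4 * i + 1 + κ * (3 * i + 2))) := by rw [h]; ring
        omega
  · intro i
    rw [if_neg]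
    intro h
    have : 3 * n = 3 * (a + 6 * κ * i + 6 * i ^ 2) + 1 := by rw [h]; ring
    omega

lemma cRR (n : ℕ) (M : ℤ) (hM : 3 * (n : ℤ) - 1 = M) :
    ((coeff n (RR (n + 1)) : ℤ) : ZMod 2) = ((PS M F1).card : ZMod 2) := by
  unfold RR
  rw [map_sum, Int.cast_sum, sum_congr rfl (fun k _ => cT (n + 1) n ((k + 1) ^ 2) (k + 1) (k + 1)),
    ← sum_product', sum_boole]
  congr 1
  apply card_nbij' (fun p : ℕ × ℕ => (((p.1 : ℤ) + 1, (p.2 : ℤ)) : ℤ × ℤ))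
    (fun q : ℤ × ℤ => (((q.1 - 1).toNat, q.2.toNat) : ℕ × ℕ))
  · rintro ⟨k, y⟩ hp
    simp only [mem_coe, mem_filter, mem_product, mem_range] at hp
    simp only [mem_coe]
    obtain ⟨_, h⟩ := hp
    have hy : 1 ≤ y := by
      rcases Nat.eq_zero_or_pos y with h0 | h0
      · subst h0
        exfalso
        have : 3 * n = 3 * (k + 1) ^ 2 + 1 := by rw [h]; ring
        omega
      · exact h0
    have h' : (3 * (n : ℤ)) = 3 * ((k : ℤ) + 1) ^ 2 + 6 * ((k : ℤ) + 1) * y + 2 * (y : ℤ) ^ 2 + 1 := by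
      exact_mod_cast h
    apply ps1 (by omega) (by omega)
    simp only [F1]
    linarith
  · rintro ⟨a, y⟩ hq
    simp only [mem_coe] at hq
    rw [mem_PS] at hq
    simp only [F1] at hq
    obtain ⟨⟨⟨h1, h1'⟩, ⟨h2, h2'⟩⟩, h3⟩ := hq
    obtain ⟨a', rfl⟩ : ∃ a' : ℕ, a = (a' : ℤ) + 1 := ⟨(a - 1).toNat, by omega⟩
    obtain ⟨y', rfl⟩ : ∃ y' : ℕ, y = (y' : ℤ) := ⟨y.toNat, by omega⟩
    simp only [mem_coe, mem_filter, mem_product, mem_range]
    have e1 : ((a' : ℤ) + 1 - 1).toNat = a' := by omega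
    have e2 : ((y' : ℤ)).toNat = y' := by omega
    rw [e1, e2]
    have h4 : (3 * (n : ℤ)) = 3 * ((a' : ℤ) + 1) ^ 2 + 6 * ((a' : ℤ) + 1) * y' + 2 * (y' : ℤ) ^ 2 + 1 := by
      linarith
    have h5 : 3 * n = 3 * (a' + 1) ^ 2 + 6 * (a' + 1) * y' + 2 * y' ^ 2 + 1 := by exact_mod_cast h4
    exact ⟨⟨by nlinarith, by nlinarith⟩, h5⟩
  · rintro ⟨k, y⟩ _
    refine Prod.ext ?_ ?_ <;> dsimp only <;> omega
  · rintro ⟨a, y⟩ hq
    simp only [mem_coe] at hq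
    rw [mem_PS] at hq
    obtain ⟨⟨⟨h1, h1'⟩, ⟨h2, h2'⟩⟩, h3⟩ := hq
    refine Prod.ext ?_ ?_ <;> dsimp only at * <;> omega

lemma cST (n : ℕ) (M : ℤ) (hM : 3 * (n : ℤ) - 1 = M) :
    ((coeff n (SS X (n + 1) * T0 (n + 1)) : ℤ) : ZMod 2) = ((PS M F2).card : ZMod 2) := by
  unfold SS T0
  rw [sum_mul, map_sum, Int.cast_sum, sum_congr rfl (fun k _ => cT (n + 1) n ((k + 1) ^ 2) 0 (k + 1)),
    ← sum_product', sum_boole]
  congr 1
  apply card_nbij' (fun p : ℕ × ℕ => (((p.1 : ℤ) + 1, (p.2 : ℤ)) : ℤ × ℤ))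
    (fun q : ℤ × ℤ => (((q.1 - 1).toNat, q.2.toNat) : ℕ × ℕ))
  · rintro ⟨k, y⟩ hp
    simp only [mem_coe, mem_filter, mem_product, mem_range] at hp
    simp only [mem_coe]
    obtain ⟨_, h⟩ := hp
    have hy : 1 ≤ y := by
      rcases Nat.eq_zero_or_pos y with h0 | h0
      · subst h0
        exfalso
        have : 3 * n = 3 * (k + 1) ^ 2 + 1 := by rw [h]; ring
        omega
      · exact h0
    have h' : (3 * (n : ℤ)) = 3 * ((k : ℤ) + 1) ^ 2 + 6 * 0 * y + 2 * (y : ℤ) ^ 2 + 1 := by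
      exact_mod_cast h
    apply ps2 (by omega) (by omega)
    simp only [F2]
    linarith
  · rintro ⟨a, y⟩ hq
    simp only [mem_coe] at hq
    rw [mem_PS] at hq
    simp only [F2] at hq
    obtain ⟨⟨⟨h1, h1'⟩, ⟨h2, h2'⟩⟩, h3⟩ := hq
    obtain ⟨a', rfl⟩ : ∃ a' : ℕ, a = (a' : ℤ) + 1 := ⟨(a - 1).toNat, by omega⟩
    obtain ⟨y', rfl⟩ : ∃ y' : ℕ, y = (y' : ℤ) := ⟨y.toNat, by omega⟩
    simp only [mem_coe, mem_filter, mem_product, mem_range]
    have e1 : ((a' : ℤ) + 1 - 1).toNat = a' := by omega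
    have e2 : ((y' : ℤ)).toNat = y' := by omega
    rw [e1, e2]
    have h4 : (3 * (n : ℤ)) = 3 * ((a' : ℤ) + 1) ^ 2 + 6 * 0 * y' + 2 * (y' : ℤ) ^ 2 + 1 := by
      linarith
    have h5 : 3 * n = 3 * (a' + 1) ^ 2 + 6 * 0 * y' + 2 * y' ^ 2 + 1 := by exact_mod_cast h4
    exact ⟨⟨by nlinarith, by nlinarith⟩, h5⟩
  · rintro ⟨k, y⟩ _
    refine Prod.ext ?_ ?_ <;> dsimp only <;> omega
  · rintro ⟨a, y⟩ hq
    simp only [mem_coe] at hq
    rw [mem_PS] at hq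
    obtain ⟨⟨⟨h1, h1'⟩, ⟨h2, h2'⟩⟩, h3⟩ := hq
    refine Prod.ext ?_ ?_ <;> dsimp only at * <;> omega

lemma PS_desc1 (M : ℤ) (k : ℕ) : (PS (4 ^ k * M) F1).card = (PS M F1).card := by
  induction k with
  | zero => simp
  | succ k ih =>
    rw [← ih, show (4 : ℤ) ^ (k + 1) * M = 4 * (4 ^ k * M) by ring]
    generalize (4 : ℤ) ^ k * M = L
    apply card_nbij' (fun p => (p.1 / 2, p.2 / 2)) (fun q => (2 * q.1, 2 * q.2))
    · rintro ⟨a, y⟩ hp
      simp only [mem_coe] at hp ⊢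
      rw [mem_PS] at hp
      obtain ⟨⟨⟨h1, h1'⟩, ⟨h2, h2'⟩⟩, h3⟩ := hp
      simp only [F1] at h3
      obtain ⟨a', y', rfl, rfl, h⟩ := desc_R h3
      dsimp only at *
      rw [show 2 * a' / 2 = a' by omega, show 2 * y' / 2 = y' by omega]
      exact ps1 (by omega) (by omega) h
    · rintro ⟨a, y⟩ hp
      simp only [mem_coe] at hp ⊢
      rw [mem_PS] at hp
      obtain ⟨⟨⟨h1, h1'⟩, ⟨h2, h2'⟩⟩, h3⟩ := hp
      dsimp only at *
      apply ps1 (by omega) (by omega)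
      simp only [F1] at h3 ⊢
      rw [← h3]; ring
    · rintro ⟨a, y⟩ hp
      simp only [mem_coe] at hp
      rw [mem_PS] at hp
      obtain ⟨_, h3⟩ := hp
      simp only [F1] at h3
      obtain ⟨a', y', rfl, rfl, h⟩ := desc_R h3
      refine Prod.ext ?_ ?_ <;> dsimp only <;> omega
    · rintro ⟨a, y⟩ _
      refine Prod.ext ?_ ?_ <;> dsimp only <;> omega

lemma PS_desc2 (M : ℤ) (k : ℕ) : (PS (4 ^ k * M) F2).card = (PS M F2).card := by
  induction k with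
  | zero => simp
  | succ k ih =>
    rw [← ih, show (4 : ℤ) ^ (k + 1) * M = 4 * (4 ^ k * M) by ring]
    generalize (4 : ℤ) ^ k * M = L
    apply card_nbij' (fun p => (p.1 / 2, p.2 / 2)) (fun q => (2 * q.1, 2 * q.2))
    · rintro ⟨a, y⟩ hp
      simp only [mem_coe] at hp ⊢
      rw [mem_PS] at hp
      obtain ⟨⟨⟨h1, h1'⟩, ⟨h2, h2'⟩⟩, h3⟩ := hp
      simp only [F2] at h3
      obtain ⟨a', y', rfl, rfl, h⟩ := desc_ST h3
      dsimp only at *
      rw [show 2 * a' / 2 = a' by omega, show 2 * y' / 2 = y' by omega]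
      exact ps2 (by omega) (by omega) h
    · rintro ⟨a, y⟩ hp
      simp only [mem_coe] at hp ⊢
      rw [mem_PS] at hp
      obtain ⟨⟨⟨h1, h1'⟩, ⟨h2, h2'⟩⟩, h3⟩ := hp
      dsimp only at *
      apply ps2 (by omega) (by omega)
      simp only [F2] at h3 ⊢
      rw [← h3]; ring
    · rintro ⟨a, y⟩ hp
      simp only [mem_coe] at hp
      rw [mem_PS] at hp
      obtain ⟨_, h3⟩ := hp
      simp only [F2] at h3
      obtain ⟨a', y', rfl, rfl, h⟩ := desc_ST h3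
      refine Prod.ext ?_ ?_ <;> dsimp only <;> omega
    · rintro ⟨a, y⟩ _
      refine Prod.ext ?_ ?_ <;> dsimp only <;> omega

/-- the first family -/
lemma family1 (n k : ℕ) (m : ℤ) (hm : m % 24 = 11) (hpos : 0 < m) (h : 3 * (n : ℤ) - 1 = 4 ^ k * m) :
    (4 : ℤ) ∣ c n := by
  obtain ⟨w, hw⟩ := c_mod4 n
  rw [zero_of_sup (sup_T0 _) (n := n) (by rintro ⟨y, hy⟩; exact no_T m (by omega) k y (hy ▸ h))] at hw
  have h1 := cRR n _ h
  have h2 := cST n _ h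
  rw [PS_desc1, parity m hm hpos, ← PS_desc2 m k, ← h2] at h1
  have h3 : (2 : ℤ) ∣ coeff n (RR (n + 1)) - coeff n (SS X (n + 1) * T0 (n + 1)) := by
    have : (((coeff n (RR (n + 1)) - coeff n (SS X (n + 1) * T0 (n + 1)) : ℤ)) : ZMod 2) = 0 := by
      rw [Int.cast_sub, h1, sub_self]
    exact_mod_cast (ZMod.intCast_zmod_eq_zero_iff_dvd _ 2).mp this
  obtain ⟨z, hz⟩ := h3
  exact ⟨z + w, by rw [hw]; linarith⟩

end Pool.Agent.H236.TC
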