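import Mathlib

set_option autoImplicit false
open Finset

namespace Pool.Agent.H236.TC

/-! ### numbers without representations -/

lemma z8 {a b : ℤ} (h : a = b) : (a : ZMod 8) = (b : ZMod 8) := by rw [h]
lemma z16 {a b : ℤ} (h : a = b) : (a : ZMod 16) = (b : ZMod 16) := by rw [h]

/-- evenness from the residue modulo 4 -/
lemma even_of_zmod4 {a : ℤ} (h : (2 : ZMod 4) * (a : ZMod 4) = 0) : ∃ b, a = 2 * b := by
  have h1 : (((2 * a : ℤ)) : ZMod 4) = 0 := by push_cast; exact h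
  rw [ZMod.intCast_zmod_eq_zero_iff_dvd] at h1
  push_cast at h1
  exact ⟨a / 2, by omega⟩

lemma zmod8_of {m : ℤ} {r : ℤ} (h : m % 8 = r) : (m : ZMod 8) = (r : ZMod 8) := by
  rw [← h, ← ZMod.intCast_mod m 8]; rfl

lemma zmod16_of {m : ℤ} {r : ℤ} (h : m % 16 = r) : (m : ZMod 16) = (r : ZMod 16) := by
  rw [← h, ← ZMod.intCast_mod m 16]; rfl

/-- `2y²` is not of the form `4^k m`, `m` odd -/
lemma no_T (m : ℤ) (hm : m % 2 = 1) : ∀ (k : ℕ) (y : ℤ), 2 * y ^ 2 ≠ 4 ^ k * m := by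
  intro k
  induction k with
  | zero => intro y h; rw [pow_zero, one_mul] at h; omega
  | succ k ih =>
    intro y h
    have hy : ∃ b, y = 2 * b := by
      rcases Int.even_or_odd' y with ⟨b, hb | hb⟩
      · exact ⟨b, hb⟩
      · exfalso
        have : 2 * y ^ 2 = 8 * (b ^ 2 + b) + 2 := by rw [hb]; ring
        rw [show (4 : ℤ) ^ (k + 1) * m = 4 * (4 ^ k * m) by ring] at h
        omega
    obtain ⟨b, hb⟩ := hy
    apply ih b
    rw [hb, show (4 : ℤ) ^ (k + 1) * m = 4 * (4 ^ k * m) by ring] at h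
    linarith [h]

/-- `2y²` is not of the form `4^k m`, `m ≡ 6 mod 16` -/
lemma no_T3 (m : ℤ) (hm : m % 16 = 6) : ∀ (k : ℕ) (y : ℤ), 2 * y ^ 2 ≠ 4 ^ k * m := by
  intro k
  induction k with
  | zero =>
    intro y h
    have h1 := z16 h
    push_cast at h1
    rw [zmod16_of hm] at h1
    revert h1
    generalize (y : ZMod 16) = z
    revert z; decide
  | succ k ih =>
    intro y h
    have hy : ∃ b, y = 2 * b := by
      rcases Int.even_or_odd' y with ⟨b, hb | hb⟩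
      · exact ⟨b, hb⟩
      · exfalso
        have : 2 * y ^ 2 = 8 * (b ^ 2 + b) + 2 := by rw [hb]; ring
        rw [show (4 : ℤ) ^ (k + 1) * m = 4 * (4 ^ k * m) by ring] at h
        omega
    obtain ⟨b, hb⟩ := hy
    apply ih b
    rw [hb, show (4 : ℤ) ^ (k + 1) * m = 4 * (4 ^ k * m) by ring] at h
    linarith [h]

/-- descent for the form `3k²+6ky+2y²` -/
lemma desc_R {M a y : ℤ} (h : 3 * a ^ 2 + 6 * a * y + 2 * y ^ 2 = 4 * M) :
    ∃ a' y', a = 2 * a' ∧ y = 2 * y' ∧ 3 * a' ^ 2 + 6 * a' * y' + 2 * y' ^ 2 = M := by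
  have h1 : ((3 * a ^ 2 + 6 * a * y + 2 * y ^ 2 : ℤ) : ZMod 4) = ((4 * M : ℤ) : ZMod 4) := by rw [h]
  push_cast at h1
  rw [show (4 : ZMod 4) = 0 by decide, zero_mul] at h1
  have key : ∀ z w : ZMod 4, 3 * z ^ 2 + 6 * z * w + 2 * w ^ 2 = 0 → 2 * z = 0 ∧ 2 * w = 0 := by decide
  obtain ⟨e1, e2⟩ := key _ _ h1
  obtain ⟨a', rfl⟩ := even_of_zmod4 e1
  obtain ⟨y', rfl⟩ := even_of_zmod4 e2
  exact ⟨a', y', rfl, rfl, by linarith⟩

/-- descent for the form `3k²+2y²` -/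
lemma desc_ST {M a y : ℤ} (h : 3 * a ^ 2 + 2 * y ^ 2 = 4 * M) :
    ∃ a' y', a = 2 * a' ∧ y = 2 * y' ∧ 3 * a' ^ 2 + 2 * y' ^ 2 = M := by
  have h1 : ((3 * a ^ 2 + 2 * y ^ 2 : ℤ) : ZMod 4) = ((4 * M : ℤ) : ZMod 4) := by rw [h]
  push_cast at h1
  rw [show (4 : ZMod 4) = 0 by decide, zero_mul] at h1
  have key : ∀ z w : ZMod 4, 3 * z ^ 2 + 2 * w ^ 2 = 0 → 2 * z = 0 ∧ 2 * w = 0 := by decide
  obtain ⟨e1, e2⟩ := key _ _ h1
  obtain ⟨a', rfl⟩ := even_of_zmod4 e1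
  obtain ⟨y', rfl⟩ := even_of_zmod4 e2
  exact ⟨a', y', rfl, rfl, by linarith⟩

/-- descent for the ternary form -/
lemma desc_SR {M l a y : ℤ} (h : 3 * l ^ 2 + 3 * a ^ 2 + 6 * a * y + 2 * y ^ 2 = 4 * M) :
    ∃ l' a' y', l = 2 * l' ∧ a = 2 * a' ∧ y = 2 * y' ∧
      3 * l' ^ 2 + 3 * a' ^ 2 + 6 * a' * y' + 2 * y' ^ 2 = M := by
  have h1 : ((3 * l ^ 2 + 3 * a ^ 2 + 6 * a * y + 2 * y ^ 2 : ℤ) : ZMod 4) = ((4 * M : ℤ) : ZMod 4) := by
    rw [h]
  push_cast at h1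
  rw [show (4 : ZMod 4) = 0 by decide, zero_mul] at h1
  have key : ∀ v z w : ZMod 4, 3 * v ^ 2 + 3 * z ^ 2 + 6 * z * w + 2 * w ^ 2 = 0 →
    2 * v = 0 ∧ 2 * z = 0 ∧ 2 * w = 0 := by decide
  obtain ⟨e0, e1, e2⟩ := key _ _ _ h1
  obtain ⟨l', rfl⟩ := even_of_zmod4 e0
  obtain ⟨a', rfl⟩ := even_of_zmod4 e1
  obtain ⟨y', rfl⟩ := even_of_zmod4 e2
  exact ⟨l', a', y', rfl, rfl, rfl, by linarith⟩

/-! family 2: `m ≡ 1 mod 8` -/

lemma no_R (m : ℤ) (hm : m % 8 = 1) : ∀ (k : ℕ) (a y : ℤ),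
    3 * a ^ 2 + 6 * a * y + 2 * y ^ 2 ≠ 4 ^ k * m := by
  intro k
  induction k with
  | zero =>
    intro a y h
    have h1 := z8 h
    push_cast at h1
    rw [zmod8_of hm] at h1
    revert h1
    generalize (y : ZMod 8) = z
    generalize (a : ZMod 8) = w
    revert z w; decide
  | succ k ih =>
    intro a y h
    rw [show (4 : ℤ) ^ (k + 1) * m = 4 * (4 ^ k * m) by ring] at h
    obtain ⟨a', y', _, _, h'⟩ := desc_R h
    exact ih a' y' h'

lemma no_ST (m : ℤ) (hm : m % 8 = 1) : ∀ (k : ℕ) (a y : ℤ),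
    3 * a ^ 2 + 2 * y ^ 2 ≠ 4 ^ k * m := by
  intro k
  induction k with
  | zero =>
    intro a y h
    have h1 := z8 h
    push_cast at h1
    rw [zmod8_of hm] at h1
    revert h1
    generalize (y : ZMod 8) = z
    generalize (a : ZMod 8) = w
    revert z w; decide
  | succ k ih =>
    intro a y h
    rw [show (4 : ℤ) ^ (k + 1) * m = 4 * (4 ^ k * m) by ring] at h
    obtain ⟨a', y', _, _, h'⟩ := desc_ST h
    exact ih a' y' h'

lemma no_SR (m : ℤ) (hm : m % 8 = 1) : ∀ (k : ℕ) (l a y : ℤ),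
    3 * l ^ 2 + 3 * a ^ 2 + 6 * a * y + 2 * y ^ 2 ≠ 4 ^ k * m := by
  intro k
  induction k with
  | zero =>
    intro l a y h
    have h1 := z8 h
    push_cast at h1
    rw [zmod8_of hm] at h1
    revert h1
    generalize (y : ZMod 8) = z
    generalize (a : ZMod 8) = w
    generalize (l : ZMod 8) = v
    revert z w v; decide
  | succ k ih =>
    intro l a y h
    rw [show (4 : ℤ) ^ (k + 1) * m = 4 * (4 ^ k * m) by ring] at h
    obtain ⟨l', a', y', _, _, _, h'⟩ := desc_SR h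
    exact ih l' a' y' h'

lemma no_QT (m : ℤ) (hm : m % 2 = 1) : ∀ (k : ℕ) (a y : ℤ),
    6 * a ^ 2 + 2 * y ^ 2 ≠ 4 ^ k * m := by
  intro k
  induction k with
  | zero => intro a y h; rw [pow_zero, one_mul] at h; omega
  | succ k ih =>
    intro a y h
    rcases Int.even_or_odd' a with ⟨a', ha | ha⟩ <;> rcases Int.even_or_odd' y with ⟨y', hy | hy⟩
    · apply ih a' y'
      rw [ha, hy, show (4 : ℤ) ^ (k + 1) * m = 4 * (4 ^ k * m) by ring] at h
      linarith [h]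
    · exfalso
      have h1 : 6 * a ^ 2 + 2 * y ^ 2 = 4 * (6 * a' ^ 2 + 2 * y' ^ 2 + 2 * y') + 2 := by rw [ha, hy]; ring
      rw [show (4 : ℤ) ^ (k + 1) * m = 4 * (4 ^ k * m) by ring] at h
      omega
    · exfalso
      have h1 : 6 * a ^ 2 + 2 * y ^ 2 = 4 * (6 * a' ^ 2 + 6 * a' + 2 * y' ^ 2 + 1) + 2 := by rw [ha, hy]; ring
      rw [show (4 : ℤ) ^ (k + 1) * m = 4 * (4 ^ k * m) by ring] at h
      omega
    · exfalso
      obtain ⟨s, hs⟩ : ∃ s, a' ^ 2 + a' = 2 * s := by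
        have := Int.even_mul_succ_self a'
        obtain ⟨s, hs⟩ := this
        exact ⟨s, by linarith⟩
      obtain ⟨t, ht⟩ : ∃ t, y' ^ 2 + y' = 2 * t := by
        have := Int.even_mul_succ_self y'
        obtain ⟨s, hs⟩ := this
        exact ⟨s, by linarith⟩
      have h1 : 6 * a ^ 2 + 2 * y ^ 2 = 24 * (a' ^ 2 + a') + 8 * (y' ^ 2 + y') + 8 := by rw [ha, hy]; ring
      rw [hs, ht, h] at h1
      rcases k with _ | k
      · rw [zero_add, pow_one] at h1; omega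
      · have h2 : (4 : ℤ) ^ (k + 1 + 1) * m = 16 * (4 ^ k * m) := by ring
        rw [h2] at h1
        omega

/-! family 3: `m ≡ 6 mod 16` -/

lemma no_R3 (m : ℤ) (hm : m % 16 = 6) : ∀ (k : ℕ) (a y : ℤ),
    3 * a ^ 2 + 6 * a * y + 2 * y ^ 2 ≠ 4 ^ k * m := by
  intro k
  induction k with
  | zero =>
    intro a y h
    have h1 := z16 h
    push_cast at h1
    rw [zmod16_of hm] at h1
    revert h1
    generalize (y : ZMod 16) = z
    generalize (a : ZMod 16) = w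
    revert z w; decide
  | succ k ih =>
    intro a y h
    rw [show (4 : ℤ) ^ (k + 1) * m = 4 * (4 ^ k * m) by ring] at h
    obtain ⟨a', y', _, _, h'⟩ := desc_R h
    exact ih a' y' h'

lemma no_ST3 (m : ℤ) (hm : m % 16 = 6) : ∀ (k : ℕ) (a y : ℤ),
    3 * a ^ 2 + 2 * y ^ 2 ≠ 4 ^ k * m := by
  intro k
  induction k with
  | zero =>
    intro a y h
    have h1 := z16 h
    push_cast at h1
    rw [zmod16_of hm] at h1
    revert h1
    generalize (y : ZMod 16) = z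
    generalize (a : ZMod 16) = w
    revert z w; decide
  | succ k ih =>
    intro a y h
    rw [show (4 : ℤ) ^ (k + 1) * m = 4 * (4 ^ k * m) by ring] at h
    obtain ⟨a', y', _, _, h'⟩ := desc_ST h
    exact ih a' y' h'

end Pool.Agent.H236.TC
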