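import Pool.Agent.H236.TC.AS
import Pool.Agent.H236.TC.NT

set_option autoImplicit false
open Finset PowerSeries

namespace Pool.Agent.H236.TC

/-- the nonzero coefficients of `f` have indices satisfying `Q` -/
def Sup (f : ℤ⟦X⟧) (Q : ℕ → Prop) : Prop := ∀ n, coeff n f ≠ 0 → Q n

lemma Sup.mono {f : ℤ⟦X⟧} {Q R : ℕ → Prop} (h : Sup f Q) (hQ : ∀ n, Q n → R n) : Sup f R :=
  fun n hn => hQ n (h n hn)

lemma sup_pow (e : ℕ) : Sup ((X : ℤ⟦X⟧) ^ e) (fun n => n = e) := by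
  intro n hn
  rw [coeff_X_pow] at hn
  by_contra h
  rw [if_neg h] at hn
  exact hn rfl

lemma sup_X : Sup (X : ℤ⟦X⟧) (fun n => n = 1) := by
  have := sup_pow 1
  rwa [pow_one] at this

lemma sup_mul {f g : ℤ⟦X⟧} {Q R : ℕ → Prop} (hf : Sup f Q) (hg : Sup g R) :
    Sup (f * g) (fun n => ∃ a b, Q a ∧ R b ∧ n = a + b) := by
  intro n hn
  rw [coeff_mul] at hn
  obtain ⟨p, hp, hpn⟩ := exists_ne_zero_of_sum_ne_zero hn
  refine ⟨p.1, p.2, hf _ (left_ne_zero_of_mul hpn), hg _ (right_ne_zero_of_mul hpn), ?_⟩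
  exact (mem_antidiagonal.mp hp).symm

lemma sup_sum {ι : Type*} (s : Finset ι) (f : ι → ℤ⟦X⟧) (Q : ℕ → Prop)
    (h : ∀ i ∈ s, Sup (f i) Q) : Sup (∑ i ∈ s, f i) Q := by
  intro n hn
  rw [map_sum] at hn
  obtain ⟨i, hi, hin⟩ := exists_ne_zero_of_sum_ne_zero hn
  exact h i hi n hin

lemma sup_add {f g : ℤ⟦X⟧} {Q : ℕ → Prop} (hf : Sup f Q) (hg : Sup g Q) : Sup (f + g) Q := by
  intro n hn
  rw [map_add] at hn
  by_contra h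
  have h1 : coeff n f = 0 := by by_contra h'; exact h (hf n h')
  have h2 : coeff n g = 0 := by by_contra h'; exact h (hg n h')
  rw [h1, h2] at hn
  exact hn (by norm_num)

lemma sup_neg {f : ℤ⟦X⟧} {Q : ℕ → Prop} (i : ℕ) (hf : Sup f Q) : Sup ((-1) ^ i * f) Q := by
  rcases neg_one_pow_eq_or ℤ⟦X⟧ i with h | h
  · rw [h, one_mul]; exact hf
  · rw [h]
    intro n hn
    apply hf n
    intro h0
    apply hn
    rw [neg_one_mul, map_neg, h0, neg_zero]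

lemma sup_SS (N : ℕ) : Sup (SS (X : ℤ⟦X⟧) N) (fun n => ∃ a : ℤ, (n : ℤ) = a ^ 2) := by
  apply sup_sum
  intro k _
  apply sup_neg
  exact (sup_pow _).mono (fun n hn => ⟨k + 1, by rw [hn]; push_cast; ring⟩)

lemma sup_T (N k : ℕ) : Sup ((X : ℤ⟦X⟧) * cl (X ^ 2) N k)
    (fun n => ∃ y : ℤ, 3 * (n : ℤ) - 1 = 2 * y ^ 2 + 6 * k * y) := by
  unfold cl
  rw [mul_sum]
  apply sup_sum
  intro i _
  rw [show (X : ℤ⟦X⟧) * ((-1) ^ i * ((X ^ 2) ^ (3 * i ^ 2 + 2 * i + k * (3 * i + 1)) +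
      (X ^ 2) ^ (3 * i ^ 2 + 4 * i + 1 + k * (3 * i + 2)))) =
      (-1) ^ i * (X ^ (1 + 2 * (3 * i ^ 2 + 2 * i + k * (3 * i + 1))) +
        X ^ (1 + 2 * (3 * i ^ 2 + 4 * i + 1 + k * (3 * i + 2)))) by ring]
  apply sup_neg
  apply sup_add
  · exact (sup_pow _).mono (fun n hn => ⟨3 * i + 1, by rw [hn]; push_cast; ring⟩)
  · exact (sup_pow _).mono (fun n hn => ⟨3 * i + 2, by rw [hn]; push_cast; ring⟩)

lemma sup_T0 (N : ℕ) : Sup (T0 N) (fun n => ∃ y : ℤ, 3 * (n : ℤ) - 1 = 2 * y ^ 2) := by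
  refine (sup_T N 0).mono (fun n hn => ?_)
  obtain ⟨y, hy⟩ := hn
  exact ⟨y, by rw [hy]; push_cast; ring⟩

lemma sup_RR (N : ℕ) : Sup (RR N)
    (fun n => ∃ a y : ℤ, 3 * (n : ℤ) - 1 = 3 * a ^ 2 + 6 * a * y + 2 * y ^ 2) := by
  unfold RR
  apply sup_sum
  intro k _
  rw [mul_assoc]
  apply sup_neg
  refine (sup_mul (sup_pow _) (sup_T N (k + 1))).mono (fun n hn => ?_)
  obtain ⟨a, b, ha, ⟨y, hy⟩, hn⟩ := hn
  refine ⟨k + 1, y, ?_⟩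
  rw [hn, ha]
  push_cast at hy ⊢
  linarith

lemma sup_ST0 (N : ℕ) : Sup (SS X N * T0 N)
    (fun n => ∃ a y : ℤ, 3 * (n : ℤ) - 1 = 3 * a ^ 2 + 2 * y ^ 2) := by
  refine (sup_mul (sup_SS N) (sup_T0 N)).mono (fun n hn => ?_)
  obtain ⟨a, b, ⟨c, ha⟩, ⟨y, hy⟩, hn⟩ := hn
  refine ⟨c, y, ?_⟩
  rw [hn]; push_cast; linarith

lemma sup_SR (N : ℕ) : Sup (SS X N * RR N)
    (fun n => ∃ l a y : ℤ, 3 * (n : ℤ) - 1 = 3 * l ^ 2 + 3 * a ^ 2 + 6 * a * y + 2 * y ^ 2) := by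
  refine (sup_mul (sup_SS N) (sup_RR N)).mono (fun n hn => ?_)
  obtain ⟨a, b, ⟨c, ha⟩, ⟨y, z, hy⟩, hn⟩ := hn
  refine ⟨c, y, z, ?_⟩
  rw [hn]; push_cast; linarith

/-- `∑ X^(2k²)` -/
noncomputable def SQ (N : ℕ) : ℤ⟦X⟧ := ∑ k ∈ range N, X ^ (2 * (k + 1) ^ 2)

lemma sq_sum {R : Type*} [CommRing R] {ι : Type*} (s : Finset ι) (f : ι → R) :
    ∃ W, (∑ i ∈ s, f i) ^ 2 = ∑ i ∈ s, f i ^ 2 + 2 * W := by
  classical
  induction s using Finset.induction_on with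
  | empty => exact ⟨0, by simp⟩
  | insert a s ha ih =>
    obtain ⟨W, hW⟩ := ih
    refine ⟨W + f a * ∑ i ∈ s, f i, ?_⟩
    rw [sum_insert ha, sum_insert ha]
    linear_combination hW

lemma S_sq (N : ℕ) : ∃ W, (SS (X : ℤ⟦X⟧) N) ^ 2 = SQ N + 2 * W := by
  obtain ⟨W, hW⟩ := sq_sum (range N) (fun k => (-1 : ℤ⟦X⟧) ^ (k + 1) * X ^ ((k + 1) ^ 2))
  refine ⟨W, ?_⟩
  rw [SS, hW, SQ]
  congr 1
  apply sum_congr rfl
  intro k _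
  rw [mul_pow, ← pow_mul, mul_comm (k + 1) 2, pow_mul, neg_one_sq, one_pow, one_mul, ← pow_mul,
    mul_comm 2]

lemma sup_QT (N : ℕ) : Sup (SQ N * T0 N)
    (fun n => ∃ a y : ℤ, 3 * (n : ℤ) - 1 = 6 * a ^ 2 + 2 * y ^ 2) := by
  have h1 : Sup (SQ N) (fun n => ∃ a : ℤ, (n : ℤ) = 2 * a ^ 2) := by
    apply sup_sum
    intro k _
    exact (sup_pow _).mono (fun n hn => ⟨k + 1, by rw [hn]; push_cast; ring⟩)
  refine (sup_mul h1 (sup_T0 N)).mono (fun n hn => ?_)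
  obtain ⟨a, b, ⟨c, ha⟩, ⟨y, hy⟩, hn⟩ := hn
  refine ⟨c, y, ?_⟩
  rw [hn]; push_cast; linarith

lemma cm (a : ℤ) (f : ℤ⟦X⟧) (n : ℕ) : coeff n ((a : ℤ⟦X⟧) * f) = a * coeff n f := by
  rw [← zsmul_eq_mul, map_zsmul, zsmul_eq_mul]; simp

lemma cX {N n : ℕ} (h : n < N) (J : ℤ⟦X⟧) : coeff n ((X : ℤ⟦X⟧) ^ N * J) = 0 := by
  rw [coeff_X_pow_mul', if_neg (by omega)]

/-- the number `c(n)` -/
noncomputable def c (n : ℕ) : ℤ := coeff n (FN (n + 1))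

lemma c_mod4 (n : ℕ) : ∃ w : ℤ, c n = coeff n (T0 (n + 1)) + 2 * coeff n (RR (n + 1))
    - 2 * coeff n (SS X (n + 1) * T0 (n + 1)) + 4 * w := by
  obtain ⟨J, hJ⟩ := main_ps (n + 1)
  set F := FN (n + 1) with hF
  set S := SS (X : ℤ⟦X⟧) (n + 1)
  set T := T0 (n + 1)
  set R := RR (n + 1)
  refine ⟨coeff n (S ^ 2 * F - S * R), ?_⟩
  have h : F = T + ((2 : ℤ) : ℤ⟦X⟧) * R + ((-2 : ℤ) : ℤ⟦X⟧) * (S * T) + ((4 : ℤ) : ℤ⟦X⟧) * (S ^ 2 * F - S * R) +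
      X ^ (n + 1) * (J * (1 - 2 * S)) := by
    push_cast
    linear_combination (1 - 2 * S) * hJ
  have h2 := congrArg (coeff n) h
  rw [map_add, map_add, map_add, map_add, cm, cm, cm, cX (by omega)] at h2
  rw [c, ← hF, h2]
  ring

lemma c_mod8 (n : ℕ) : ∃ w : ℤ, c n = coeff n (T0 (n + 1)) + 2 * coeff n (RR (n + 1))
    - 2 * coeff n (SS X (n + 1) * T0 (n + 1)) - 4 * coeff n (SS X (n + 1) * RR (n + 1))
    + 4 * coeff n (SQ (n + 1) * T0 (n + 1)) + 8 * w := by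
  obtain ⟨J, hJ⟩ := main_ps (n + 1)
  obtain ⟨W, hW⟩ := S_sq (n + 1)
  set F := FN (n + 1) with hF
  set S := SS (X : ℤ⟦X⟧) (n + 1)
  set T := T0 (n + 1)
  set R := RR (n + 1)
  set Q := SQ (n + 1)
  refine ⟨coeff n (W * T + S ^ 2 * R - S ^ 3 * F), ?_⟩
  have h : F = T + ((2 : ℤ) : ℤ⟦X⟧) * R + ((-2 : ℤ) : ℤ⟦X⟧) * (S * T) + ((-4 : ℤ) : ℤ⟦X⟧) * (S * R) +
      ((4 : ℤ) : ℤ⟦X⟧) * (Q * T) + ((8 : ℤ) : ℤ⟦X⟧) * (W * T + S ^ 2 * R - S ^ 3 * F) +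
      X ^ (n + 1) * (J * (1 - 2 * S + 4 * S ^ 2)) := by
    push_cast
    linear_combination (1 - 2 * S + 4 * S ^ 2) * hJ + 4 * T * hW
  have h2 := congrArg (coeff n) h
  rw [map_add, map_add, map_add, map_add, map_add, map_add, cm, cm, cm, cm, cm, cX (by omega)] at h2
  rw [c, ← hF, h2]
  ring

lemma zero_of_sup {f : ℤ⟦X⟧} {Q : ℕ → Prop} (h : Sup f Q) {n : ℕ} (hn : ¬ Q n) : coeff n f = 0 := by
  by_contra h'
  exact hn (h n h')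

/-- the second family -/
lemma family2 (n k : ℕ) (m : ℤ) (hm : m % 8 = 1) (h : 3 * (n : ℤ) - 1 = 4 ^ k * m) : (8 : ℤ) ∣ c n := by
  obtain ⟨w, hw⟩ := c_mod8 n
  rw [zero_of_sup (sup_T0 _) (n := n) (by rintro ⟨y, hy⟩; exact no_T m (by omega) k y (hy ▸ h)),
    zero_of_sup (sup_RR _) (n := n) (by rintro ⟨a, y, hy⟩; exact no_R m hm k a y (hy ▸ h)),
    zero_of_sup (sup_ST0 _) (n := n) (by rintro ⟨a, y, hy⟩; exact no_ST m hm k a y (hy ▸ h)),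
    zero_of_sup (sup_SR _) (n := n) (by rintro ⟨l, a, y, hy⟩; exact no_SR m hm k l a y (hy ▸ h)),
    zero_of_sup (sup_QT _) (n := n) (by rintro ⟨a, y, hy⟩; exact no_QT m (by omega) k a y (hy ▸ h))] at hw
  exact ⟨w, by rw [hw]; ring⟩

/-- the third family -/
lemma family3 (n k : ℕ) (m : ℤ) (hm : m % 16 = 6) (h : 3 * (n : ℤ) - 1 = 4 ^ k * m) : (4 : ℤ) ∣ c n := by
  obtain ⟨w, hw⟩ := c_mod4 n
  rw [zero_of_sup (sup_T0 _) (n := n) (by rintro ⟨y, hy⟩; exact no_T3 m hm k y (hy ▸ h)),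
    zero_of_sup (sup_RR _) (n := n) (by rintro ⟨a, y, hy⟩; exact no_R3 m hm k a y (hy ▸ h)),
    zero_of_sup (sup_ST0 _) (n := n) (by rintro ⟨a, y, hy⟩; exact no_ST3 m hm k a y (hy ▸ h))] at hw
  exact ⟨w, by rw [hw]; ring⟩

end Pool.Agent.H236.TC
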