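import Pool.Agent.H236.TC.QS

set_option autoImplicit false
open Finset

namespace Pool.Agent.H236.TC

variable {A : Type*} [CommRing A]

/-- `(x;x²)_m` -/
def Om (x : A) (m : ℕ) : A := ∏ j ∈ range m, (1 - x ^ (2 * j + 1))

lemma Om_succ (x : A) (m : ℕ) : Om x (m + 1) = Om x m * (1 - x ^ (2 * m + 1)) := by
  simp [Om, prod_range_succ]

noncomputable def bb (x : A) (m k : ℕ) : A :=
  if k ≤ m then (-1) ^ k * x ^ (k ^ 2) * D (x ^ 2) (2 * m) * u (x ^ 2) (m - k) * u (x ^ 2) (m + k)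
  else 0

lemma bb_rec {x : A} (hn : IsNilpotent (x ^ 2)) (m k : ℕ) :
    bb x (m + 1) (k + 1) = (1 + x ^ (4 * m + 2)) * bb x m (k + 1)
      - x ^ (2 * m + 1) * (bb x m k + bb x m (k + 2)) := by
  rcases Nat.lt_or_ge m k with h | h
  · simp [bb, show ¬ (k + 1 ≤ m + 1) by omega, show ¬ (k + 1 ≤ m) by omega,
      show ¬ (k ≤ m) by omega, show ¬ (k + 2 ≤ m) by omega]
  obtain ⟨d, rfl⟩ := Nat.exists_eq_add_of_le h
  rcases d with _ | _ | d
  · simp only [bb, add_zero, le_refl, if_true, show ¬ (k + 1 ≤ k) by omega,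
      show ¬ (k + 2 ≤ k) by omega, if_false]
    have h1 := D_mul_u hn (2 * (k + 1))
    have h2 := D_mul_u hn (2 * k)
    rw [show k + 1 - (k + 1) = 0 by omega, show k - k = 0 by omega, u_zero,
      show k + 1 + (k + 1) = 2 * (k + 1) by ring, show k + k = 2 * k by ring]
    linear_combination ((-1) ^ (k + 1) * x ^ ((k + 1) ^ 2)) * h1 + (x ^ (2 * k + 1) * (-1) ^ k * x ^ (k ^ 2)) * h2
  · simp only [bb, zero_add, le_refl, if_true, show (k ≤ k + 1) by omega,
      show k + 1 ≤ k + 1 + 1 by omega, show ¬ (k + 2 ≤ k + 1) by omega, if_false]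
    rw [show k + 1 + 1 - (k + 1) = 1 by omega, show k + 1 - (k + 1) = 0 by omega, u_zero,
      show k + 1 - k = 1 by omega, show k + 1 + 1 + (k + 1) = 2 * k + 3 by ring,
      show k + 1 + (k + 1) = 2 * k + 2 by ring, show k + 1 + k = 2 * k + 1 by ring,
      show 2 * (k + 1 + 1) = 2 * k + 3 + 1 by ring, show 2 * (k + 1) = 2 * k + 2 by ring,
      D_succ _ (2 * k + 3)]
    have h3 := D_mul_u hn (2 * k + 3)
    have h2 := D_mul_u hn (2 * k + 2)
    have h1 := D_mul_u hn (2 * k + 1)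
    have hd : D (x ^ 2) (2 * k + 2) = D (x ^ 2) (2 * k + 1) * (1 - (x ^ 2) ^ (2 * k + 2)) := by
      rw [show 2 * k + 2 = 2 * k + 1 + 1 by ring, D_succ]
    have h0 : (1 - x ^ 2) * u (x ^ 2) 1 = 1 := by
      have := D_mul_u hn 1
      rw [show (1 : ℕ) = 0 + 1 by rfl, D_succ, D_zero] at this
      simpa using this
    have h1' : D (x ^ 2) (2 * k + 2) * u (x ^ 2) (2 * k + 1) = (1 - (x ^ 2) ^ (2 * k + 2)) := by
      rw [hd]; linear_combination (1 - (x ^ 2) ^ (2 * k + 2)) * h1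
    linear_combination ((-1) ^ (k + 1) * x ^ ((k + 1) ^ 2) * (1 - (x ^ 2) ^ (2 * k + 3 + 1)) * u (x ^ 2) 1) * h3
      - ((1 + x ^ (4 * (k + 1) + 2)) * (-1) ^ (k + 1) * x ^ ((k + 1) ^ 2)) * h2
      + (x ^ (2 * (k + 1) + 1) * (-1) ^ k * x ^ (k ^ 2) * u (x ^ 2) 1) * h1'
      + ((1 + x ^ (4 * (k + 1) + 2)) * (-1) ^ (k + 1) * x ^ ((k + 1) ^ 2)) * h0
  · simp only [bb, show k + 1 ≤ k + (d + 1 + 1) + 1 by omega, show k + 1 ≤ k + (d + 1 + 1) by omega,
      show k ≤ k + (d + 1 + 1) by omega, show k + 2 ≤ k + (d + 1 + 1) by omega, if_true]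
    rw [show k + (d + 1 + 1) + 1 - (k + 1) = d + 2 by omega,
      show k + (d + 1 + 1) - (k + 1) = d + 1 by omega, show k + (d + 1 + 1) - k = d + 2 by omega,
      show k + (d + 1 + 1) - (k + 2) = d by omega,
      show k + (d + 1 + 1) + 1 + (k + 1) = 2 * k + d + 4 by ring,
      show k + (d + 1 + 1) + (k + 1) = 2 * k + d + 3 by ring,
      show k + (d + 1 + 1) + k = 2 * k + d + 2 by ring,
      show k + (d + 1 + 1) + (k + 2) = 2 * k + d + 4 by ring,
      show 2 * (k + (d + 1 + 1) + 1) = 2 * (k + (d + 1 + 1)) + 1 + 1 by ring,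
      D_succ _ (2 * (k + (d + 1 + 1)) + 1), D_succ _ (2 * (k + (d + 1 + 1))),
      u_eq hn d, u_eq hn (d + 1), show d + 1 + 1 = d + 2 by ring,
      u_eq hn (2 * k + d + 2), show 2 * k + d + 2 + 1 = 2 * k + d + 3 by ring,
      u_eq hn (2 * k + d + 3), show 2 * k + d + 3 + 1 = 2 * k + d + 4 by ring]
    ring

lemma bb_rec0 {x : A} (hn : IsNilpotent (x ^ 2)) (m : ℕ) :
    bb x (m + 1) 0 = (1 + x ^ (4 * m + 2)) * bb x m 0 - 2 * x ^ (2 * m + 1) * bb x m 1 := by
  rcases m with _ | m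
  · simp only [bb, zero_le, if_true, show ¬ (1 ≤ 0) by omega, if_false]
    have h1 : (1 - x ^ 2) * u (x ^ 2) 1 = 1 := by
      have := D_mul_u hn 1
      rw [show (1 : ℕ) = 0 + 1 by rfl, D_succ, D_zero] at this
      simpa using this
    have h2 : D (x ^ 2) 2 = (1 - x ^ 2) * (1 - x ^ 4) := by
      rw [show (2 : ℕ) = 0 + 1 + 1 by rfl, D_succ, D_succ, D_zero]; ring
    simp only [mul_zero, zero_add, mul_one, tsub_zero, pow_zero, one_mul, Nat.zero_eq]
    rw [h2, u_zero, D_zero]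
    have : x ^ (0 ^ 2) = 1 := by norm_num
    rw [this]
    linear_combination ((1 - x ^ 4) * u (x ^ 2) 1 + (1 + x ^ 2)) * h1
  · simp only [bb, zero_le, if_true, show (1 ≤ m + 1) by omega]
    rw [show m + 1 + 1 - 0 = m + 2 by omega, show m + 1 + 1 + 0 = m + 2 by omega,
      show m + 1 - 0 = m + 1 by omega, show m + 1 + 0 = m + 1 by omega,
      show m + 1 - 1 = m by omega, show m + 1 + 1 = m + 2 by omega,
      show 2 * (m + 2) = 2 * (m + 1) + 1 + 1 by ring,
      D_succ _ (2 * (m + 1) + 1), D_succ _ (2 * (m + 1)),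
      u_eq hn m, u_eq hn (m + 1), show m + 1 + 1 = m + 2 by ring]
    ring

lemma Om_sq {x : A} (hn : IsNilpotent (x ^ 2)) (m : ℕ) : ∀ K, m ≤ K →
    Om x m ^ 2 = bb x m 0 + 2 * ∑ k ∈ range K, bb x m (k + 1) := by
  induction m with
  | zero =>
    intro K _
    have : ∀ k ∈ range K, bb x 0 (k + 1) = 0 := by
      intro k _; simp [bb]
    rw [sum_eq_zero this]
    simp [Om, bb, D_zero, u_zero]
  | succ m ih =>
    intro K hK
    obtain ⟨K, rfl⟩ : ∃ K', K = K' + 1 := ⟨K - 1, by omega⟩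
    rw [Om_succ, mul_pow]
    have h := ih (K + 1) (by omega)
    have e1 : ∑ k ∈ range (K + 1), bb x (m + 1) (k + 1) =
        (1 + x ^ (4 * m + 2)) * ∑ k ∈ range (K + 1), bb x m (k + 1)
        - x ^ (2 * m + 1) * (∑ k ∈ range (K + 1), bb x m k + ∑ k ∈ range (K + 1), bb x m (k + 2)) := by
      rw [sum_congr rfl (fun k _ => bb_rec hn m k), sum_sub_distrib, ← mul_sum, ← mul_sum,
        sum_add_distrib]
    have e2 : ∑ k ∈ range (K + 1), bb x m k = bb x m 0 + ∑ k ∈ range K, bb x m (k + 1) := by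
      rw [sum_range_succ', add_comm]
    have e3 : ∑ k ∈ range (K + 1), bb x m (k + 1) = ∑ k ∈ range K, bb x m (k + 1) := by
      rw [sum_range_succ]; simp [bb, show ¬ (K + 1 ≤ m) by omega]
    have e4 : ∑ k ∈ range (K + 1), bb x m (k + 2) + bb x m 1 = ∑ k ∈ range (K + 1), bb x m (k + 1) := by
      have : ∑ k ∈ range (K + 2), bb x m (k + 1) = ∑ k ∈ range (K + 1), bb x m (k + 2) + bb x m 1 := by
        rw [sum_range_succ']
      rw [← this, sum_range_succ]; simp [bb, show ¬ (K + 1 + 1 ≤ m) by omega]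
    rw [e1, bb_rec0 hn m, e2]
    have h' := h
    rw [e3] at h e4 ⊢
    set S := ∑ k ∈ range K, bb x m (k + 1)
    set S2 := ∑ k ∈ range (K + 1), bb x m (k + 2)
    have e5 : S2 = S - bb x m 1 := by rw [← e4]; ring
    rw [e5, h]
    ring

lemma Om_stable {x : A} {N : ℕ} (hx : x ^ N = 0) {n : ℕ} (h : N ≤ n) : Om x n = Om x N := by
  induction n, h using Nat.le_induction with
  | base => rfl
  | succ n hn ih =>
    rw [Om_succ, ih, pow_zero_of_le hx (by omega)]; ring

/-- `∑_{k=1}^{N} (-1)^k x^(k^2)` -/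
def SS (x : A) (N : ℕ) : A := ∑ k ∈ range N, (-1) ^ (k + 1) * x ^ ((k + 1) ^ 2)

lemma phi_eq {x : A} {N : ℕ} (hx : x ^ N = 0) :
    D (x ^ 2) N * Om x N ^ 2 = 1 + 2 * SS x N := by
  have hp : (x ^ 2) ^ N = 0 := by rw [← pow_mul, mul_comm, pow_mul, hx]; 
                                  rcases N with _ | N
                                  · simp at hx; 
                                    have : ∀ a : A, a = 0 := fun a => by rw [← mul_one a, hx, mul_zero]
                                    exact this _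
                                  · simp
  have hn : IsNilpotent (x ^ 2) := ⟨N, hp⟩
  have h3 : D (x ^ 2) N * u (x ^ 2) N = 1 := D_mul_u hn N
  have h := Om_sq hn (2 * N) (2 * N) le_rfl
  rw [Om_stable hx (by omega : N ≤ 2 * N)] at h
  rw [h, mul_add]
  have e0 : D (x ^ 2) N * bb x (2 * N) 0 = 1 := by
    simp only [bb, zero_le, if_true]
    rw [show 2 * N - 0 = 2 * N by omega, show 2 * N + 0 = 2 * N by omega,
      D_stable hp (n := 2 * (2 * N)) (by omega), u_stable hp (n := 2 * N) (by omega)]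
    have : x ^ (0 ^ 2) = 1 := by norm_num
    rw [this]
    linear_combination (D (x ^ 2) N * u (x ^ 2) N + 1) * h3
  rw [e0]
  have e1 : D (x ^ 2) N * (2 * ∑ k ∈ range (2 * N), bb x (2 * N) (k + 1)) =
      2 * ∑ k ∈ range (2 * N), D (x ^ 2) N * bb x (2 * N) (k + 1) := by
    rw [← mul_sum]; ring
  rw [e1]
  congr 2
  rw [two_mul, sum_range_add]
  have e2 : ∑ k ∈ range N, D (x ^ 2) N * bb x (N + N) (N + k + 1) = 0 := by
    apply sum_eq_zero
    intro k _
    unfold bb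
    split_ifs
    · rw [pow_zero_of_le hx (n := (N + k + 1) ^ 2) (by nlinarith)]; ring
    · ring
  have e2' : ∑ k ∈ range N, D (x ^ 2) N * bb x (N + N) (N + (k : ℕ) + 1) = 0 := e2
  rw [e2', add_zero]
  unfold SS
  apply sum_congr rfl
  intro k hk
  have hk' : k < N := mem_range.mp hk
  simp only [bb, show k + 1 ≤ N + N by omega, if_true]
  rw [D_stable hp (n := 2 * (N + N)) (by omega), u_stable hp (n := N + N - (k + 1)) (by omega),
    u_stable hp (n := N + N + (k + 1)) (by omega)]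
  linear_combination ((-1) ^ (k + 1) * x ^ ((k + 1) ^ 2)) * (D (x ^ 2) N * u (x ^ 2) N + 1) * h3

end Pool.Agent.H236.TC
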