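import Mathlib

set_option autoImplicit false
open Finset

namespace Pool.Agent.H236.TC

lemma inv_card {α : Type*} [DecidableEq α] (s : Finset α) (g : α → α) (hg : ∀ a ∈ s, g a ∈ s)
    (hgg : ∀ a ∈ s, g (g a) = a) :
    (s.card : ZMod 2) = ((s.filter (fun a => g a = a)).card : ZMod 2) := by
  have h1 : ∑ a ∈ s.filter (fun a => ¬ g a = a), (1 : ZMod 2) = 0 := by
    apply Finset.sum_involution (fun a _ => g a)
    · intro a _; decide
    · intro a ha _; exact (mem_filter.mp ha).2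
    · intro a ha
      obtain ⟨h1, h2⟩ := mem_filter.mp ha
      refine mem_filter.mpr ⟨hg a h1, ?_⟩
      intro h
      rw [hgg a h1] at h
      exact h2 h.symm
    · intro a ha; exact hgg a (mem_filter.mp ha).1
  have h2 := card_filter_add_card_filter_not (s := s) (fun a => g a = a)
  rw [← h2]
  push_cast
  simp only [sum_const, nsmul_eq_mul, mul_one] at h1
  rw [h1, add_zero]

abbrev T3 := ℤ × ℤ × ℤ

noncomputable def Bx (K : ℤ) : Finset T3 := Icc (-K) K ×ˢ (Icc (-K) K ×ˢ Icc (-K) K)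

lemma mem_Bx {K : ℤ} {w : T3} : w ∈ Bx K ↔ (-K ≤ w.1 ∧ w.1 ≤ K) ∧ (-K ≤ w.2.1 ∧ w.2.1 ≤ K) ∧
    (-K ≤ w.2.2 ∧ w.2.2 ≤ K) := by
  unfold Bx; simp only [mem_product, mem_Icc]

/-- positive solutions -/
noncomputable def PS (M : ℤ) (F : ℤ → ℤ → ℤ) : Finset (ℤ × ℤ) := (Icc 1 M ×ˢ Icc 1 M).filter (fun p => F p.1 p.2 = M)

def F1 (a y : ℤ) : ℤ := 3 * a ^ 2 + 6 * a * y + 2 * y ^ 2
def F2 (a y : ℤ) : ℤ := 3 * a ^ 2 + 2 * y ^ 2
def F3 (a y : ℤ) : ℤ := a ^ 2 + 2 * y ^ 2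
def FD (a y : ℤ) : ℤ := a * (a + 2 * y)

lemma mem_PS {M : ℤ} {F : ℤ → ℤ → ℤ} {p : ℤ × ℤ} : p ∈ PS M F ↔
    ((1 ≤ p.1 ∧ p.1 ≤ M) ∧ (1 ≤ p.2 ∧ p.2 ≤ M)) ∧ F p.1 p.2 = M := by
  unfold PS; simp only [mem_filter, mem_product, mem_Icc]

lemma ps1 {M a y : ℤ} (ha : 1 ≤ a) (hy : 1 ≤ y) (h : F1 a y = M) : (a, y) ∈ PS M F1 := by
  rw [mem_PS]; refine ⟨⟨⟨ha, ?_⟩, ⟨hy, ?_⟩⟩, h⟩ <;> simp only [F1] at h <;> nlinarith
lemma ps2 {M a y : ℤ} (ha : 1 ≤ a) (hy : 1 ≤ y) (h : F2 a y = M) : (a, y) ∈ PS M F2 := by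
  rw [mem_PS]; refine ⟨⟨⟨ha, ?_⟩, ⟨hy, ?_⟩⟩, h⟩ <;> simp only [F2] at h <;> nlinarith
lemma ps3 {M a y : ℤ} (ha : 1 ≤ a) (hy : 1 ≤ y) (h : F3 a y = M) : (a, y) ∈ PS M F3 := by
  rw [mem_PS]; refine ⟨⟨⟨ha, ?_⟩, ⟨hy, ?_⟩⟩, h⟩ <;> simp only [F3] at h <;> nlinarith
lemma psD {M a y : ℤ} (ha : 1 ≤ a) (hy : 1 ≤ y) (h : FD a y = M) : (a, y) ∈ PS M FD := by
  rw [mem_PS]; refine ⟨⟨⟨ha, ?_⟩, ⟨hy, ?_⟩⟩, h⟩ <;> simp only [FD] at h <;> nlinarith

/-- pointwise count for the triangle -/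
lemma pw3 (b g : ℤ) (hg : g ≠ 0) :
    (if b < 0 then (1 : ZMod 2) else 0) + (if (b < 0 ∧ g > 0) ∨ (b > 0 ∧ g < 0) then 1 else 0)
      + (if g < 0 then 1 else 0) = (if b = 0 ∧ g < 0 then 1 else 0) := by
  split_ifs <;> first | rfl | (exfalso; omega)

/-- pointwise count for the quadrilateral -/
lemma pw4 (b g d : ℤ) (hd : d ≠ 0) (hbg : ¬ (b = 0 ∧ g = 0)) :
    (if b < 0 then (1 : ZMod 2) else 0) + (if (b < 0 ∧ g > 0) ∨ (b > 0 ∧ g < 0) then 1 else 0)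
      + (if (g > 0 ∧ d < 0) ∨ (g < 0 ∧ d > 0) then 1 else 0)
      + (if d < 0 then 1 else 0) = (if b = 0 ∧ g < 0 then 1 else 0) +
        (if g = 0 ∧ ((b < 0 ∧ d > 0) ∨ (b > 0 ∧ d < 0)) then 1 else 0) := by
  split_ifs <;> first | rfl | (exfalso; omega)

lemma sq_mod4 (x : ℤ) : x ^ 2 % 4 = 0 ∨ x ^ 2 % 4 = 1 := by
  rcases Int.even_or_odd' x with ⟨b, hb | hb⟩
  · left; rw [hb, show (2 * b) ^ 2 = 4 * b ^ 2 by ring]; omega
  · right; rw [hb, show (2 * b + 1) ^ 2 = 4 * (b ^ 2 + b) + 1 by ring]; omega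

lemma sq_mod3 (x : ℤ) : x ^ 2 % 3 = 0 ∨ x ^ 2 % 3 = 1 := by
  have h : x % 3 = 0 ∨ x % 3 = 1 ∨ x % 3 = 2 := by omega
  rcases h with h | h | h
  · left; obtain ⟨b, rfl⟩ : ∃ b, x = 3 * b := ⟨x / 3, by omega⟩
    rw [show (3 * b) ^ 2 = 3 * (3 * b ^ 2) by ring]; omega
  · right; obtain ⟨b, rfl⟩ : ∃ b, x = 3 * b + 1 := ⟨x / 3, by omega⟩
    rw [show (3 * b + 1) ^ 2 = 3 * (3 * b ^ 2 + 2 * b) + 1 by ring]; omega
  · right; obtain ⟨b, rfl⟩ : ∃ b, x = 3 * b + 2 := ⟨x / 3, by omega⟩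
    rw [show (3 * b + 2) ^ 2 = 3 * (3 * b ^ 2 + 4 * b + 1) + 1 by ring]; omega

end Pool.Agent.H236.TC

namespace Pool.Agent.H236.TC

lemma le_sq (x : ℤ) : x ≤ x ^ 2 ∧ -x ≤ x ^ 2 := by
  rcases lt_trichotomy x 0 with h | h | h
  · constructor <;> nlinarith
  · subst h; simp
  · constructor <;> nlinarith

/-! ### the triangle for `l² + 2uv` -/

def q3 (w : T3) : ℤ := w.1 ^ 2 + 2 * w.2.1 * w.2.2

noncomputable def X3 (M : ℤ) : Finset T3 := (Bx (10 * M)).filter (fun w => q3 w = M ∧ 0 < w.2.2)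

lemma bA3 {M l u v : ℤ} (h : l ^ 2 + 2 * u * v = M) (hv : 0 < v) (hu : v < u) :
    ((l, u, v) : T3) ∈ Bx (10 * M) := by
  rw [mem_Bx]
  have h1 := le_sq l
  have h2 : 0 < u * v := by nlinarith
  have h3 : u ≤ u * v := by nlinarith
  have h4 : v ≤ u * v := by nlinarith
  have h5 : 0 ≤ l ^ 2 := sq_nonneg l
  have h6 : 2 * u * v = 2 * (u * v) := by ring
  rw [h6] at h
  generalize u * v = t at *
  generalize l ^ 2 = s at *
  simp only
  omega

lemma bB3 {M l u v : ℤ} (h : l ^ 2 + 2 * u * v = M) (hu : v < u) (hl : 0 < l - u + v) :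
    ((l, u, v) : T3) ∈ Bx (10 * M) := by
  rw [mem_Bx]
  have h1 := le_sq l
  have h2 := le_sq (u + v)
  have h3 : (u - v) ^ 2 ≤ l ^ 2 := by nlinarith
  have h4 : l ^ 2 + (u + v) ^ 2 ≤ 2 * M := by nlinarith
  have h5 : 0 ≤ l ^ 2 := sq_nonneg l
  have h6 : 0 ≤ (u + v) ^ 2 := sq_nonneg _
  generalize (u + v) ^ 2 = t at *
  generalize l ^ 2 = s at *
  simp only
  omega

lemma bC3 {M l u v : ℤ} (h : l ^ 2 + 2 * u * v = M) (hv : 0 < v) (hl : l - u + v < 0) :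
    ((l, u, v) : T3) ∈ Bx (10 * M) := by
  rw [mem_Bx]
  obtain ⟨e, he⟩ : ∃ e, e = u - l - v := ⟨_, rfl⟩
  have he0 : 0 < e := by omega
  have hu : u = l + v + e := by omega
  have h1 := le_sq (l + v)
  have h2 := le_sq v
  have h0 : (l + v) ^ 2 + v ^ 2 + 2 * (v * e) = M := by rw [← h, hu]; ring
  have h3 : e ≤ v * e := by nlinarith
  have h5 : 0 ≤ (l + v) ^ 2 := sq_nonneg _
  have h6 : 0 ≤ v ^ 2 := sq_nonneg _
  generalize (l + v) ^ 2 = t at *
  generalize v ^ 2 = s at *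
  generalize v * e = r at *
  simp only
  omega

lemma tri (M : ℤ) (hM : M % 24 = 11) (hpos : 0 < M) :
    ((PS M FD).card : ZMod 2) = ((PS M F3).card : ZMod 2) := by
  -- parity facts
  have hodd : ∀ l u v : ℤ, l ^ 2 + 2 * u * v = M → l % 2 = 1 ∧ u % 2 = 1 ∧ v % 2 = 1 := by
    intro l u v h
    have h1 := sq_mod4 l
    have hl : l % 2 = 1 := by
      rcases Int.even_or_odd' l with ⟨b, hb | hb⟩
      · exfalso
        have : l ^ 2 + 2 * u * v = 2 * (2 * b ^ 2 + u * v) := by rw [hb]; ring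
        rw [h] at this; omega
      · omega
    have hl4 : l ^ 2 % 4 = 1 := by
      rcases h1 with h1 | h1
      · exfalso
        have : l ^ 2 + 2 * u * v = l ^ 2 + 2 * (u * v) := by ring
        rw [h] at this; omega
      · exact h1
    have h2 : (u * v) % 2 = 1 := by
      have : l ^ 2 + 2 * u * v = l ^ 2 + 2 * (u * v) := by ring
      rw [h] at this; omega
    have hu : u % 2 = 1 := by
      by_contra hu
      obtain ⟨b, rfl⟩ : ∃ b, u = 2 * b := ⟨u / 2, by omega⟩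
      rw [mul_assoc] at h2; omega
    have hv : v % 2 = 1 := by
      by_contra hv
      obtain ⟨b, rfl⟩ : ∃ b, v = 2 * b := ⟨v / 2, by omega⟩
      rw [show u * (2 * b) = 2 * (u * b) by ring] at h2; omega
    exact ⟨hl, hu, hv⟩
  -- the sum over the sides
  have hsum : (((X3 M).filter (fun w => w.2.2 - w.2.1 < 0)).card : ZMod 2) +
      (((X3 M).filter (fun w => (w.2.2 - w.2.1 < 0 ∧ w.1 - w.2.1 + w.2.2 > 0) ∨
        (w.2.2 - w.2.1 > 0 ∧ w.1 - w.2.1 + w.2.2 < 0))).card : ZMod 2) +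
      (((X3 M).filter (fun w => w.1 - w.2.1 + w.2.2 < 0)).card : ZMod 2) =
      (((X3 M).filter (fun w => w.2.2 - w.2.1 = 0 ∧ w.1 - w.2.1 + w.2.2 < 0)).card : ZMod 2) := by
    rw [← sum_boole, ← sum_boole, ← sum_boole, ← sum_boole, ← sum_add_distrib, ← sum_add_distrib]
    apply sum_congr rfl
    rintro ⟨l, u, v⟩ hw
    simp only [X3, mem_filter] at hw; simp only [q3] at hw
    obtain ⟨h1, h2, h3⟩ := hodd l u v hw.2.1
    exact pw3 _ _ (by simp only; omega)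
  have hA : (((X3 M).filter (fun w => w.2.2 - w.2.1 < 0)).card : ZMod 2) = 0 := by
    rw [inv_card _ (fun w => (-w.1, w.2.1, w.2.2))]
    · rw [filter_eq_empty_iff.mpr, card_empty, Nat.cast_zero]
      rintro ⟨l, u, v⟩ hw heq
      simp only [X3, mem_filter] at hw; simp only [q3] at hw
      obtain ⟨h1, h2, h3⟩ := hodd l u v hw.1.2.1
      simp only [Prod.mk.injEq] at heq
      omega
    · rintro ⟨l, u, v⟩ hw
      simp only [X3, mem_filter] at hw ⊢; simp only [q3] at hw ⊢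
      have h : (-l) ^ 2 + 2 * u * v = M := by rw [← hw.1.2.1]; ring
      exact ⟨⟨bA3 h hw.1.2.2 (by omega), h, hw.1.2.2⟩, hw.2⟩
    · rintro ⟨l, u, v⟩ _; simp
  have hC : (((X3 M).filter (fun w => w.1 - w.2.1 + w.2.2 < 0)).card : ZMod 2) = ((PS M FD).card : ZMod 2) := by
    rw [inv_card _ (fun w => (-w.1 - 2 * w.2.2, w.2.1 - 2 * w.1 - 2 * w.2.2, w.2.2))]
    · congr 1
      apply card_nbij' (fun w => (w.2.2, w.2.1)) (fun p => (-p.1, p.2, p.1))
      · rintro ⟨l, u, v⟩ hw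
        simp only [mem_coe, X3, mem_filter, Prod.mk.injEq] at hw; simp only [q3] at hw
        obtain ⟨⟨⟨_, hq, hv⟩, hg⟩, h1, _, _⟩ := hw
        have hl : l = -v := by omega
        subst hl
        simp only [mem_coe]
        apply psD (by omega) (by omega)
        simp only [FD]; rw [← hq]; ring
      · rintro ⟨a, y⟩ hp
        simp only [mem_coe] at hp
        rw [mem_PS] at hp
        simp only [FD] at hp
        obtain ⟨⟨⟨h1, _⟩, ⟨h2, _⟩⟩, h3⟩ := hp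
        have hq : (-a) ^ 2 + 2 * y * a = M := by rw [← h3]; ring
        simp only [mem_coe, X3, mem_filter, Prod.mk.injEq]; simp only [q3]
        exact ⟨⟨⟨bC3 hq (by omega) (by omega), hq, by omega⟩, by omega⟩, by omega, by omega, trivial⟩
      · rintro ⟨l, u, v⟩ hw
        simp only [mem_coe, X3, mem_filter, Prod.mk.injEq] at hw
        refine Prod.ext ?_ (Prod.ext ?_ ?_) <;> dsimp only <;> omega
      · rintro ⟨a, y⟩ _; rfl
    · rintro ⟨l, u, v⟩ hw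
      simp only [X3, mem_filter] at hw ⊢; simp only [q3] at hw ⊢
      have h : (-l - 2 * v) ^ 2 + 2 * (u - 2 * l - 2 * v) * v = M := by rw [← hw.1.2.1]; ring
      exact ⟨⟨bC3 h hw.1.2.2 (by omega), h, hw.1.2.2⟩, by omega⟩
    · rintro ⟨l, u, v⟩ _
      refine Prod.ext ?_ (Prod.ext ?_ ?_) <;> dsimp only <;> omega
  have hB : (((X3 M).filter (fun w => (w.2.2 - w.2.1 < 0 ∧ w.1 - w.2.1 + w.2.2 > 0) ∨
        (w.2.2 - w.2.1 > 0 ∧ w.1 - w.2.1 + w.2.2 < 0))).card : ZMod 2) = 0 := by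
    have e : ((X3 M).filter (fun w => (w.2.2 - w.2.1 < 0 ∧ w.1 - w.2.1 + w.2.2 > 0) ∨
        (w.2.2 - w.2.1 > 0 ∧ w.1 - w.2.1 + w.2.2 < 0))).card =
        ((Bx (10 * M)).filter (fun w => q3 w = M ∧ w.2.2 - w.2.1 < 0 ∧ w.1 - w.2.1 + w.2.2 > 0)).card := by
      apply card_nbij' (fun w => if w.2.2 - w.2.1 < 0 then w else (-w.1, -w.2.1, -w.2.2))
        (fun w => if 0 < w.2.2 then w else (-w.1, -w.2.1, -w.2.2))
      · rintro ⟨l, u, v⟩ hw
        simp only [mem_coe, X3, mem_filter] at hw ⊢; simp only [q3] at hw ⊢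
        obtain ⟨⟨hb, hq, hv⟩, h⟩ := hw
        split_ifs with h1
        · exact ⟨hb, hq, h1, by dsimp only at *; omega⟩
        · have h' : (-l) ^ 2 + 2 * (-u) * (-v) = M := by rw [← hq]; ring
          exact ⟨bB3 h' (by omega) (by omega), h', by simp only; omega, by simp only; omega⟩
      · rintro ⟨l, u, v⟩ hw
        simp only [mem_coe, X3, mem_filter] at hw ⊢; simp only [q3] at hw ⊢
        obtain ⟨hb, hq, h⟩ := hw
        have hodd' := hodd l u v hq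
        split_ifs with h1
        · exact ⟨⟨hb, hq, h1⟩, by dsimp only at *; omega⟩
        · have h' : (-l) ^ 2 + 2 * (-u) * (-v) = M := by rw [← hq]; ring
          refine ⟨⟨?_, h', by simp only; omega⟩, by simp only; omega⟩
          rw [mem_Bx] at hb ⊢
          simp only at hb ⊢
          omega
      · rintro ⟨l, u, v⟩ hw
        simp only [mem_coe, X3, mem_filter] at hw ⊢; simp only [q3] at hw ⊢
        obtain ⟨⟨hb, hq, hv⟩, h⟩ := hw
        split_ifs with h1 h2 h3 <;> first | rfl | (exfalso; dsimp only at *; omega) | (simp only [neg_neg])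
      · rintro ⟨l, u, v⟩ hw
        simp only [mem_coe, X3, mem_filter] at hw ⊢; simp only [q3] at hw ⊢
        obtain ⟨hb, hq, h⟩ := hw
        split_ifs with h1 h2 h3 <;> first | rfl | (exfalso; dsimp only at *; omega) | (simp only [neg_neg])
    rw [e, inv_card _ (fun w => (w.1, -w.2.2, -w.2.1))]
    · rw [filter_eq_empty_iff.mpr, card_empty, Nat.cast_zero]
      rintro ⟨l, u, v⟩ hw heq
      simp only [mem_filter] at hw; simp only [q3] at hw
      simp only [Prod.mk.injEq] at heq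
      obtain ⟨h1, h2, h3⟩ := hodd l u v hw.2.1
      have hq := hw.2.1
      have : v = -u := by omega
      subst this
      obtain ⟨a, rfl⟩ : ∃ a, l = 2 * a + 1 := ⟨l / 2, by omega⟩
      obtain ⟨b, rfl⟩ : ∃ b, u = 2 * b + 1 := ⟨u / 2, by omega⟩
      obtain ⟨s, hs⟩ := Int.even_mul_succ_self a
      obtain ⟨t, ht⟩ := Int.even_mul_succ_self b
      have : (2 * a + 1) ^ 2 + 2 * (2 * b + 1) * (-(2 * b + 1)) = 4 * (a * (a + 1)) - 8 * (b * (b + 1)) - 1 := by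
        ring
      rw [hq, hs, ht] at this
      omega
    · rintro ⟨l, u, v⟩ hw
      simp only [mem_filter] at hw ⊢; simp only [q3] at hw ⊢
      have h : l ^ 2 + 2 * (-v) * (-u) = M := by rw [← hw.2.1]; ring
      exact ⟨bB3 h (by omega) (by omega), h, by omega, by omega⟩
    · rintro ⟨l, u, v⟩ _; simp
  have hZ : ((X3 M).filter (fun w => w.2.2 - w.2.1 = 0 ∧ w.1 - w.2.1 + w.2.2 < 0)).card = (PS M F3).card := by
    apply card_nbij' (fun w => (-w.1, w.2.2)) (fun p => (-p.1, p.2, p.2))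
    · rintro ⟨l, u, v⟩ hw
      simp only [mem_coe, X3, mem_filter] at hw; simp only [q3] at hw
      obtain ⟨⟨_, hq, hv⟩, h1, h2⟩ := hw
      simp only [mem_coe]
      apply ps3 (by omega) (by omega)
      simp only [F3]; rw [← hq, show u = v by omega]; ring
    · rintro ⟨a, y⟩ hp
      simp only [mem_coe] at hp
      rw [mem_PS] at hp
      simp only [F3] at hp
      obtain ⟨⟨⟨h1, h1'⟩, ⟨h2, h2'⟩⟩, h3⟩ := hp
      have hq : (-a) ^ 2 + 2 * y * y = M := by rw [← h3]; ring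
      simp only [mem_coe, X3, mem_filter]; simp only [q3]
      refine ⟨⟨?_, hq, by omega⟩, by omega, by omega⟩
      rw [mem_Bx]; simp only; omega
    · rintro ⟨l, u, v⟩ hw
      simp only [mem_coe, X3, mem_filter] at hw; simp only [q3] at hw
      refine Prod.ext ?_ (Prod.ext ?_ ?_) <;> dsimp only <;> omega
    · rintro ⟨a, y⟩ _; simp
  rw [hA, hB, hC, hZ] at hsum
  simpa using hsum

end Pool.Agent.H236.TC
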