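import Mathlib

set_option autoImplicit false
open Finset

namespace Pool.Agent.H236.TC

variable {A : Type*} [CommRing A]

/-- `(p;p)_n` -/
noncomputable def D (p : A) (n : ℕ) : A := ∏ j ∈ range n, (1 - p ^ (j + 1))
/-- inverse of `(p;p)_n` -/
noncomputable def u (p : A) (n : ℕ) : A := Ring.inverse (D p n)
/-- `(-p^(m+1);p)_N` -/
def P (p : A) (N m : ℕ) : A := ∏ j ∈ range N, (1 + p ^ (m + 1 + j))

lemma D_succ (p : A) (n : ℕ) : D p (n + 1) = D p n * (1 - p ^ (n + 1)) := by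
  simp [D, prod_range_succ]

lemma D_zero (p : A) : D p 0 = 1 := by simp [D]

lemma isUnit_D {p : A} (hp : IsNilpotent p) (n : ℕ) : IsUnit (D p n) := by
  induction n with
  | zero => rw [D_zero]; exact isUnit_one
  | succ n ih =>
    rw [D_succ]
    exact ih.mul (IsNilpotent.isUnit_one_sub (hp.pow_of_pos (by omega)))

lemma D_mul_u {p : A} (hp : IsNilpotent p) (n : ℕ) : D p n * u p n = 1 :=
  Ring.mul_inverse_cancel _ (isUnit_D hp n)

lemma u_zero (p : A) : u p 0 = 1 := by simp [u, D_zero]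

lemma u_eq {p : A} (hp : IsNilpotent p) (n : ℕ) : u p n = (1 - p ^ (n + 1)) * u p (n + 1) := by
  have h1 := D_mul_u hp n
  have h2 := D_mul_u hp (n + 1)
  rw [D_succ] at h2
  calc u p n = u p n * (D p n * (1 - p ^ (n + 1)) * u p (n + 1)) := by rw [h2, mul_one]
    _ = (D p n * u p n) * ((1 - p ^ (n + 1)) * u p (n + 1)) := by ring
    _ = _ := by rw [h1, one_mul]

lemma pow_zero_of_le {p : A} {N : ℕ} (hp : p ^ N = 0) {n : ℕ} (h : N ≤ n) : p ^ n = 0 :=
  pow_eq_zero_of_le h hp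

lemma D_stable {p : A} {N : ℕ} (hp : p ^ N = 0) {n : ℕ} (h : N ≤ n) : D p n = D p N := by
  induction n, h using Nat.le_induction with
  | base => rfl
  | succ n hn ih =>
    rw [D_succ, ih, pow_zero_of_le hp (by omega)]; ring

lemma u_stable {p : A} {N : ℕ} (hp : p ^ N = 0) {n : ℕ} (h : N ≤ n) : u p n = u p N := by
  unfold u; rw [D_stable hp h]

lemma P_eq {p : A} {N : ℕ} (hp : p ^ N = 0) (m : ℕ) :
    P p N m = (1 + p ^ (m + 1)) * P p N (m + 1) := by
  have h1 : ∏ j ∈ range (N + 1), (1 + p ^ (m + 1 + j)) = P p N m := by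
    rw [prod_range_succ, pow_zero_of_le hp (n := m + 1 + N) (by omega)]; simp [P]
  rw [← h1, prod_range_succ']
  unfold P
  rw [mul_comm]
  simp only [add_zero]
  congr 1
  apply prod_congr rfl
  intro j _
  rw [show m + 1 + (j + 1) = m + 1 + 1 + j by ring]

lemma P_big {p : A} {N : ℕ} (hp : p ^ N = 0) {m : ℕ} (h : N ≤ m) : P p N m = 1 := by
  unfold P
  apply prod_eq_one
  intro j _
  rw [pow_zero_of_le hp (by omega)]; ring

/-- the summand -/
noncomputable def f (p : A) (N k m : ℕ) : A := p ^ m * P p N m * D p (2 * m) * u p (m - k) * u p (m + k)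

noncomputable def G (p : A) (N k L : ℕ) : A :=
  (1 + p ^ (k + 1)) * p ^ k * P p N (k + L + 2) * D p (2 * (k + L + 2)) * u p (L + 1) *
    u p (2 * k + L + 3)

lemma step {p : A} {N : ℕ} (hp : p ^ N = 0) (k L : ℕ) :
    f p N k (k + L + 2) + p ^ (3 * k + 3) * f p N (k + 2) (k + L + 2) =
      G p N k (L + 1) - G p N k L := by
  have hn : IsNilpotent p := ⟨N, hp⟩
  unfold f G
  rw [show k + L + 2 - k = L + 2 by omega, show k + L + 2 - (k + 2) = L by omega,
    show k + L + 2 + k = 2 * k + L + 2 by ring, show k + L + 2 + (k + 2) = 2 * k + L + 4 by ring,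
    show k + (L + 1) + 2 = k + L + 2 + 1 by ring, show L + 1 + 1 = L + 2 by ring,
    show 2 * k + (L + 1) + 3 = 2 * k + L + 4 by ring,
    show 2 * (k + L + 2 + 1) = 2 * (k + L + 2) + 1 + 1 by ring,
    D_succ p (2 * (k + L + 2) + 1), D_succ p (2 * (k + L + 2)),
    P_eq hp (k + L + 2), u_eq hn L, u_eq hn (L + 1), u_eq hn (2 * k + L + 2),
    show L + 1 + 1 = L + 2 by ring, show 2 * k + L + 2 + 1 = 2 * k + L + 3 by ring,
    u_eq hn (2 * k + L + 3), show 2 * k + L + 3 + 1 = 2 * k + L + 4 by ring]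
  ring

lemma base {p : A} {N : ℕ} (hp : p ^ N = 0) (k : ℕ) :
    f p N k k + f p N k (k + 1) = G p N k 0 := by
  have hn : IsNilpotent p := ⟨N, hp⟩
  have h1 : (1 - p) * u p 1 = 1 := by
    have := D_mul_u hn 1
    rw [show (1 : ℕ) = 0 + 1 by rfl, D_succ, D_zero] at this
    simpa using this
  have h2 : D p (2 * k) * u p (2 * k) = 1 := D_mul_u hn _
  have h3 : D p (2 * k + 1) * u p (2 * k + 1) = 1 := D_mul_u hn _
  have h4 : D p (2 * k + 3) * u p (2 * k + 3) = 1 := D_mul_u hn _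
  unfold f G
  rw [show k - k = 0 by omega, show k + k = 2 * k by ring, u_zero,
    show k + 1 - k = 1 by omega, show k + 1 + k = 2 * k + 1 by ring,
    show 2 * (k + 1) = 2 * k + 1 + 1 by ring, D_succ p (2 * k + 1),
    show 2 * (k + 0 + 2) = 2 * k + 3 + 1 by ring, D_succ p (2 * k + 3),
    show k + 0 + 2 = k + 1 + 1 by ring, show 0 + 1 = 1 by rfl,
    show 2 * k + 0 + 3 = 2 * k + 3 by ring, P_eq hp k, P_eq hp (k + 1)]
  have e1 : p ^ k * ((1 + p ^ (k + 1)) * ((1 + p ^ (k + 1 + 1)) * P p N (k + 1 + 1))) * D p (2 * k) * 1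
      * u p (2 * k) = p ^ k * ((1 + p ^ (k + 1)) * ((1 + p ^ (k + 1 + 1)) * P p N (k + 1 + 1))) := by
    linear_combination (p ^ k * ((1 + p ^ (k + 1)) * ((1 + p ^ (k + 1 + 1)) * P p N (k + 1 + 1)))) * h2
  rw [e1]
  linear_combination
    (p ^ (k + 1) * ((1 + p ^ (k + 1 + 1)) * P p N (k + 1 + 1)) * (1 - p ^ (2 * k + 1 + 1)) * u p 1) * h3
    - ((1 + p ^ (k + 1)) * p ^ k * P p N (k + 1 + 1) * (1 - p ^ (2 * k + 3 + 1)) * u p 1) * h4
    - (p ^ k * (1 + p ^ (k + 1)) * (1 + p ^ (k + 1 + 1)) * P p N (k + 1 + 1)) * h1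

lemma tele {p : A} {N : ℕ} (hp : p ^ N = 0) (k L : ℕ) :
    (∑ d ∈ range (L + 2), f p N k (k + d)) + p ^ (3 * k + 3) *
      (∑ d ∈ range L, f p N (k + 2) (k + 2 + d)) = G p N k L := by
  induction L with
  | zero =>
    simp only [zero_add, range_zero, sum_empty, mul_zero, add_zero]
    rw [sum_range_succ, sum_range_one, add_zero]
    exact base hp k
  | succ L ih =>
    rw [sum_range_succ (fun d => f p N k (k + d)) (L + 2), sum_range_succ _ L]
    have := step hp k L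
    rw [show k + (L + 2) = k + L + 2 by ring, show k + 2 + L = k + L + 2 by ring]
    linear_combination ih + this

noncomputable def tt (p : A) (N k : ℕ) : A := D p N * ∑ d ∈ range N, f p N k (k + d)

lemma f_zero {p : A} {N : ℕ} (hp : p ^ N = 0) (k : ℕ) {m : ℕ} (h : N ≤ m) : f p N k m = 0 := by
  unfold f; rw [pow_zero_of_le hp h]; ring

lemma tt_rec {p : A} {N : ℕ} (hp : p ^ N = 0) (k : ℕ) :
    tt p N k = p ^ k + p ^ (2 * k + 1) - p ^ (3 * k + 3) * tt p N (k + 2) := by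
  have h := tele hp k N
  have h1 : ∑ d ∈ range (N + 2), f p N k (k + d) = ∑ d ∈ range N, f p N k (k + d) := by
    rw [sum_range_succ, sum_range_succ, f_zero hp k (by omega), f_zero hp k (by omega)]; ring
  rw [h1] at h
  have h2 : D p N * G p N k N = p ^ k + p ^ (2 * k + 1) := by
    unfold G
    have h3 : D p N * u p N = 1 := D_mul_u ⟨N, hp⟩ N
    rw [P_big hp (by omega), D_stable hp (n := 2 * (k + N + 2)) (by omega),
      u_stable hp (n := N + 1) (by omega), u_stable hp (n := 2 * k + N + 3) (by omega)]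
    linear_combination ((1 + p ^ (k + 1)) * p ^ k * (D p N * u p N + 1)) * h3
  unfold tt
  linear_combination D p N * h + h2

/-- closed form -/
def cl (p : A) (N k : ℕ) : A :=
  ∑ i ∈ range N, (-1) ^ i * (p ^ (3 * i ^ 2 + 2 * i + k * (3 * i + 1)) +
    p ^ (3 * i ^ 2 + 4 * i + 1 + k * (3 * i + 2)))

lemma cl_rec {p : A} {N : ℕ} (hp : p ^ N = 0) (k : ℕ) :
    cl p N k = p ^ k + p ^ (2 * k + 1) - p ^ (3 * k + 3) * cl p N (k + 2) := by
  have h1 : cl p N k = ∑ i ∈ range (N + 1), (-1) ^ i * (p ^ (3 * i ^ 2 + 2 * i + k * (3 * i + 1)) +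
    p ^ (3 * i ^ 2 + 4 * i + 1 + k * (3 * i + 2))) := by
    rw [sum_range_succ, pow_zero_of_le hp (n := 3 * N ^ 2 + 2 * N + k * (3 * N + 1)) (by nlinarith),
      pow_zero_of_le hp (n := 3 * N ^ 2 + 4 * N + 1 + k * (3 * N + 2)) (by nlinarith)]
    simp [cl]
  rw [h1, sum_range_succ', cl, mul_sum]
  have h2 : ∀ i ∈ range N, (-1 : A) ^ (i + 1) * (p ^ (3 * (i + 1) ^ 2 + 2 * (i + 1) + k * (3 * (i + 1) + 1)) +
    p ^ (3 * (i + 1) ^ 2 + 4 * (i + 1) + 1 + k * (3 * (i + 1) + 2))) =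
    - (p ^ (3 * k + 3) * ((-1) ^ i * (p ^ (3 * i ^ 2 + 2 * i + (k + 2) * (3 * i + 1)) +
    p ^ (3 * i ^ 2 + 4 * i + 1 + (k + 2) * (3 * i + 2))))) := by
    intro i _
    ring
  rw [sum_congr rfl h2, sum_neg_distrib]
  ring

lemma tt_eq {p : A} {N : ℕ} (hp : p ^ N = 0) : ∀ n k : ℕ, N ≤ n + k → tt p N k = cl p N k := by
  intro n
  induction n using Nat.strong_induction_on with
  | _ n ih =>
    intro k hk
    rcases Nat.eq_zero_or_pos n with h0 | h0
    · subst h0
      have hk' : N ≤ k := by omega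
      have e1 : tt p N k = 0 := by
        unfold tt
        rw [sum_eq_zero (fun d _ => f_zero hp k (by omega)), mul_zero]
      have e2 : cl p N k = 0 := by
        unfold cl
        apply sum_eq_zero
        intro i _
        rw [pow_zero_of_le hp (n := 3 * i ^ 2 + 2 * i + k * (3 * i + 1)) (by nlinarith),
          pow_zero_of_le hp (n := 3 * i ^ 2 + 4 * i + 1 + k * (3 * i + 2)) (by nlinarith)]
        ring
      rw [e1, e2]
    · rw [tt_rec hp, cl_rec hp, ih (n - 1) (by omega) (k + 2) (by omega)]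

end Pool.Agent.H236.TC
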