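import Pool.Agent.H236.TC.CT

set_option autoImplicit false
open Finset PowerSeries

namespace Pool.Agent.H236.TC

lemma prod_stable {A : Type*} [CommRing A] (g : ℕ → A) {N' N : ℕ} (h : N' ≤ N)
    (hg : ∀ j, N' ≤ j → g j = 1) : ∏ j ∈ range N, g j = ∏ j ∈ range N', g j := by
  induction N, h using Nat.le_induction with
  | base => rfl
  | succ n hn ih => rw [prod_range_succ, ih, hg n hn, mul_one]

lemma sum_stable {A : Type*} [CommRing A] (g : ℕ → A) {N' N : ℕ} (h : N' ≤ N)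
    (hg : ∀ j, N' ≤ j → g j = 0) : ∑ j ∈ range N, g j = ∑ j ∈ range N', g j := by
  induction N, h using Nat.le_induction with
  | base => rfl
  | succ n hn ih => rw [sum_range_succ, ih, hg n hn, add_zero]

lemma FN_stable {N n : ℕ} (h : n < N) : coeff n (FN N) = coeff n (FN (n + 1)) := by
  set Q := Ideal.span {(X : ℤ⟦X⟧) ^ (n + 1)}
  let φ := Ideal.Quotient.mk Q
  have hx : (φ X) ^ (n + 1) = 0 := by
    rw [← map_pow, Ideal.Quotient.eq_zero_iff_mem]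
    exact Ideal.subset_span rfl
  have hI : ∀ L m, φ (invOfUnit (∏ j ∈ range L, (1 - (X : ℤ⟦X⟧) ^ (2 * m + 1 + 2 * j))) 1) *
      ∏ j ∈ range L, (1 - (φ X) ^ (2 * m + 1 + 2 * j)) = 1 := by
    intro L m
    have h1 : ∏ j ∈ range L, (1 - (φ X) ^ (2 * m + 1 + 2 * j)) =
        φ (∏ j ∈ range L, (1 - (X : ℤ⟦X⟧) ^ (2 * m + 1 + 2 * j))) := by
      simp [map_prod]
    rw [h1, ← map_mul, mul_comm, mul_invOfUnit, map_one]
    simp [map_prod]
  have e : ∀ L, n + 1 ≤ L → φ (FN L) = ∑ m ∈ range (n + 1), (φ X) ^ (2 * m + 1) *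
      (∏ j ∈ range (n + 1), (1 + (φ X) ^ (2 * m + 2 + 2 * j))) *
      (φ (invOfUnit (∏ j ∈ range (n + 1), (1 - (X : ℤ⟦X⟧) ^ (2 * m + 1 + 2 * j))) 1)) ^ 2 := by
    intro L hL
    have e0 : φ (FN L) = ∑ m ∈ range L, (φ X) ^ (2 * m + 1) *
      (∏ j ∈ range L, (1 + (φ X) ^ (2 * m + 2 + 2 * j))) *
      (φ (invOfUnit (∏ j ∈ range L, (1 - (X : ℤ⟦X⟧) ^ (2 * m + 1 + 2 * j))) 1)) ^ 2 := by
      simp [FN, map_sum, map_prod]
    rw [e0, sum_stable _ hL]
    · apply sum_congr rfl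
      intro m _
      rw [prod_stable (fun j => 1 + (φ X) ^ (2 * m + 2 + 2 * j)) hL
        (fun j hj => by rw [pow_zero_of_le hx (by omega), add_zero])]
      have hi : φ (invOfUnit (∏ j ∈ range L, (1 - (X : ℤ⟦X⟧) ^ (2 * m + 1 + 2 * j))) 1) =
          φ (invOfUnit (∏ j ∈ range (n + 1), (1 - (X : ℤ⟦X⟧) ^ (2 * m + 1 + 2 * j))) 1) := by
        have h1 := hI L m
        have h2 := hI (n + 1) m
        rw [prod_stable (fun j => 1 - (φ X) ^ (2 * m + 1 + 2 * j)) hL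
          (fun j hj => by rw [pow_zero_of_le hx (by omega), sub_zero])] at h1
        generalize φ (invOfUnit (∏ j ∈ range L, (1 - (X : ℤ⟦X⟧) ^ (2 * m + 1 + 2 * j))) 1) = a at *
        generalize φ (invOfUnit (∏ j ∈ range (n + 1), (1 - (X : ℤ⟦X⟧) ^ (2 * m + 1 + 2 * j))) 1) = b at *
        generalize ∏ j ∈ range (n + 1), (1 - (φ X) ^ (2 * m + 1 + 2 * j)) = p at *
        calc a = a * (b * p) := by rw [h2, mul_one]
          _ = b * (a * p) := by ring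
          _ = b := by rw [h1, mul_one]
      rw [hi]
    · intro m hm
      rw [pow_zero_of_le hx (by omega)]; ring
  have h3 : FN N - FN (n + 1) ∈ Q := by
    rw [← Ideal.Quotient.eq_zero_iff_mem, map_sub]
    exact sub_eq_zero.mpr ((e N (by omega)).trans (e (n + 1) le_rfl).symm)
  obtain ⟨J, hJ⟩ := Ideal.mem_span_singleton'.mp h3
  have h4 : FN N = FN (n + 1) + X ^ (n + 1) * J := by rw [mul_comm (X ^ (n + 1)) J, hJ]; ring
  rw [h4, map_add, cX (by omega), add_zero]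

lemma four_pow_mod (k : ℕ) : 4 ^ k % 3 = 1 := by
  induction k with
  | zero => rfl
  | succ k ih => rw [pow_succ]; omega

lemma idx (k n r s : ℕ) (hr : r % 3 = 2) (hs : s * 4 ^ k = s * 4 ^ k) :
    3 * (((s * 4 ^ k * n + (r * 4 ^ k + 1) / 3 : ℕ)) : ℤ) - 1 = 4 ^ k * ((3 * s * n + r : ℕ) : ℤ) := by
  have h1 := four_pow_mod k
  have h2 : (r * 4 ^ k + 1) % 3 = 0 := by
    rw [Nat.add_mod, Nat.mul_mod, h1, hr]
  have h3 : 3 * ((r * 4 ^ k + 1) / 3) = r * 4 ^ k + 1 := by omega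
  have h4 : 3 * (s * 4 ^ k * n + (r * 4 ^ k + 1) / 3) = 4 ^ k * (3 * s * n + r) + 1 := by
    rw [mul_add, h3]; ring
  have h5 : ((3 * (s * 4 ^ k * n + (r * 4 ^ k + 1) / 3) : ℕ) : ℤ) = ((4 ^ k * (3 * s * n + r) + 1 : ℕ) : ℤ) := by
    rw [h4]
  push_cast at h5 ⊢
  linarith

end Pool.Agent.H236.TC
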